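import Pool.Agent.H496.R6.Core
import Pool.Agent.H496.R6.Arith
import Pool.Agent.H496.R6.Compact

/-!
# The density hypothesis of Sarnak and Xue, in the level and in the weight together

Let `D = (a, b / K)` be a quaternion algebra over a totally real field `K`, split at the real places
`w ∈ W` (where `a` is positive) and ramified at the real places `v ∈ V` (where `a` and `b` are
negative); `V` is not empty. We bound the number of automorphic forms for the principal congruence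
subgroup of level `𝔫`, of an arbitrary single weight `n = (n_v)`, which violate the Ramanujan
conjecture at the real place `w₀`, in the full range predicted by the density hypothesis.
-/

set_option autoImplicit false

namespace Pool.Agent.Results.MP_8410ab_nt.SarnakXue

open MeasureTheory Set Function Quaternion
open UpperHalfPlane hiding I
open scoped MatrixGroups ComplexConjugate NumberField ENNReal

section algebra
variable {K : Type} [Field K] {a b : K}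

/-- The reduced norm of the quaternion algebra `D = (a, b / K)`, in which `i² = a`, `j² = b`, `k = ij`. -/
def nrd (x : ℍ[K,a,b]) : K := x.re ^ 2 - a * x.imI ^ 2 - b * x.imJ ^ 2 + a * b * x.imK ^ 2

theorem nrd_mul (x y : ℍ[K,a,b]) : nrd (x * y) = nrd x * nrd y := by
  obtain ⟨x0, x1, x2, x3⟩ := x
  obtain ⟨y0, y1, y2, y3⟩ := y
  simp only [nrd, QuaternionAlgebra.mk_mul_mk]
  ring

theorem nrd_one : nrd (1 : ℍ[K,a,b]) = 1 := by simp [nrd]

/-- The conjugate of a quaternion. -/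
def bar (x : ℍ[K,a,b]) : ℍ[K,a,b] := ⟨x.re, -x.imI, -x.imJ, -x.imK⟩

theorem nrd_bar (x : ℍ[K,a,b]) : nrd (bar x) = nrd x := by
  simp only [nrd, bar]
  ring

theorem bar_mul_self (x : ℍ[K,a,b]) (h : nrd x = 1) : bar x * x = 1 := by
  obtain ⟨x0, x1, x2, x3⟩ := x
  simp only [nrd] at h
  simp only [bar, QuaternionAlgebra.mk_mul_mk]
  ext
  · rw [QuaternionAlgebra.re_one, ← h]
    ring
  · rw [QuaternionAlgebra.imI_one]
    ring
  · rw [QuaternionAlgebra.imJ_one]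
    ring
  · rw [QuaternionAlgebra.imK_one]
    ring

variable (a b) in
/-- The group `D¹` of elements of reduced norm one in `D = (a, b / K)`. -/
@[ext]
structure NormOne where
  el : ℍ[K,a,b]
  nrd_el : nrd el = 1

/-- The product in `D¹`. -/
def NormOne.mul (x y : NormOne a b) : NormOne a b :=
  ⟨x.el * y.el, by rw [nrd_mul, x.nrd_el, y.nrd_el, one_mul]⟩

instance : Mul (NormOne a b) := ⟨NormOne.mul⟩

instance : One (NormOne a b) := ⟨⟨1, nrd_one⟩⟩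

instance : Inv (NormOne a b) := ⟨fun x => ⟨bar x.el, by rw [nrd_bar, x.nrd_el]⟩⟩

/-- `D¹` is a group. -/
instance : Group (NormOne a b) := Group.ofLeftAxioms
  (fun x y z => NormOne.ext (mul_assoc x.el y.el z.el))
  (fun x => NormOne.ext (one_mul x.el))
  (fun x => NormOne.ext (bar_mul_self x.el x.nrd_el))

/-- The matrix of `x` at a real place at which `a` is positive. -/
noncomputable def toM (ψ : K →+* ℝ) (x : ℍ[K,a,b]) : Matrix (Fin 2) (Fin 2) ℝ :=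
  !![ψ x.re + √(ψ a) * ψ x.imI, ψ b * (ψ x.imJ + √(ψ a) * ψ x.imK);
     ψ x.imJ - √(ψ a) * ψ x.imK, ψ x.re - √(ψ a) * ψ x.imI]

theorem toM_mul {ψ : K →+* ℝ} (h : 0 < ψ a) (x y : ℍ[K,a,b]) : toM ψ (x * y) = toM ψ x * toM ψ y := by
  obtain ⟨x0, x1, x2, x3⟩ := x
  obtain ⟨y0, y1, y2, y3⟩ := y
  have hs : √(ψ a) ^ 2 = ψ a := Real.sq_sqrt h.le
  simp only [toM, QuaternionAlgebra.mk_mul_mk, Matrix.mul_fin_two, map_add, map_sub, map_mul, map_zero]
  generalize √(ψ a) = s at hs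
  rw [← hs]
  ext i j
  fin_cases i <;> fin_cases j <;> simp <;> ring

theorem toM_one (ψ : K →+* ℝ) : toM ψ (1 : ℍ[K,a,b]) = 1 := by
  rw [Matrix.one_fin_two]
  simp [toM]

theorem det_toM {ψ : K →+* ℝ} (h : 0 < ψ a) (x : ℍ[K,a,b]) : (toM ψ x).det = ψ (nrd x) := by
  have hs : √(ψ a) ^ 2 = ψ a := Real.sq_sqrt h.le
  rw [toM, Matrix.det_fin_two_of, nrd]
  simp only [map_add, map_sub, map_mul, map_pow]
  generalize √(ψ a) = s at hs
  rw [← hs]
  ring

/-- The element of `SL₂(ℝ)` given by an element of `D¹` at a real place at which `a` is positive. -/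
noncomputable def toSL (ψ : K →+* ℝ) (h : 0 < ψ a) (u : NormOne a b) : SL(2, ℝ) :=
  ⟨toM ψ u.el, by rw [det_toM h, u.nrd_el, map_one]⟩

/-- The image of `x` in Hamilton's quaternions at a real place at which `a` and `b` are negative. -/
noncomputable def toH (φ : K →+* ℝ) (x : ℍ[K,a,b]) : ℍ[ℝ] :=
  ⟨φ x.re, √(-φ a) * φ x.imI, √(-φ b) * φ x.imJ, √(-φ a) * √(-φ b) * φ x.imK⟩

theorem toH_mul {φ : K →+* ℝ} (ha : φ a < 0) (hb : φ b < 0) (x y : ℍ[K,a,b]) :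
    toH φ (x * y) = toH φ x * toH φ y := by
  obtain ⟨x0, x1, x2, x3⟩ := x
  obtain ⟨y0, y1, y2, y3⟩ := y
  have hs : √(-φ a) ^ 2 = -φ a := Real.sq_sqrt (by linarith)
  have ht : √(-φ b) ^ 2 = -φ b := Real.sq_sqrt (by linarith)
  have k0 : ∀ x : ℍ[K,a,b], (toH φ x).re = φ x.re := fun _ => rfl
  have k1 : ∀ x : ℍ[K,a,b], (toH φ x).imI = √(-φ a) * φ x.imI := fun _ => rfl
  have k2 : ∀ x : ℍ[K,a,b], (toH φ x).imJ = √(-φ b) * φ x.imJ := fun _ => rfl
  have k3 : ∀ x : ℍ[K,a,b], (toH φ x).imK = √(-φ a) * √(-φ b) * φ x.imK := fun _ => rfl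
  have hs' : φ a = -√(-φ a) ^ 2 := by linarith
  have ht' : φ b = -√(-φ b) ^ 2 := by linarith
  ext
  · rw [Quaternion.re_mul]
    simp only [k0, k1, k2, k3, QuaternionAlgebra.mk_mul_mk, map_add, map_sub, map_mul, map_zero]
    generalize √(-φ a) = s at hs'
    generalize √(-φ b) = t at ht'
    rw [hs', ht']
    ring
  · rw [Quaternion.imI_mul]
    simp only [k0, k1, k2, k3, QuaternionAlgebra.mk_mul_mk, map_add, map_sub, map_mul, map_zero]
    generalize √(-φ a) = s at hs'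
    generalize √(-φ b) = t at ht'
    rw [ht']
    ring
  · rw [Quaternion.imJ_mul]
    simp only [k0, k1, k2, k3, QuaternionAlgebra.mk_mul_mk, map_add, map_sub, map_mul, map_zero]
    generalize √(-φ a) = s at hs'
    generalize √(-φ b) = t at ht'
    rw [hs']
    ring
  · rw [Quaternion.imK_mul]
    simp only [k0, k1, k2, k3, QuaternionAlgebra.mk_mul_mk, map_add, map_sub, map_mul, map_zero]
    ring

theorem toH_one (φ : K →+* ℝ) : toH φ (1 : ℍ[K,a,b]) = 1 := by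
  ext <;> simp [toH]

theorem normSq_toH {φ : K →+* ℝ} (ha : φ a < 0) (hb : φ b < 0) (x : ℍ[K,a,b]) :
    ‖toH φ x‖ ^ 2 = φ (nrd x) := by
  have hs : √(-φ a) ^ 2 = -φ a := Real.sq_sqrt (by linarith)
  have ht : √(-φ b) ^ 2 = -φ b := Real.sq_sqrt (by linarith)
  rw [sq, ← Quaternion.normSq_eq_norm_mul_self, Quaternion.normSq_def', nrd]
  simp only [toH, map_add, map_sub, map_mul, map_pow]
  generalize √(-φ a) = s at hs
  generalize √(-φ b) = t at ht
  have hs' : φ a = -s ^ 2 := by linarith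
  have ht' : φ b = -t ^ 2 := by linarith
  rw [hs', ht']
  ring

theorem norm_toH {φ : K →+* ℝ} (ha : φ a < 0) (hb : φ b < 0) (γ : NormOne a b) : ‖toH φ γ.el‖ = 1 := by
  have h := normSq_toH ha hb γ.el
  have h1 : nrd γ.el = 1 := γ.2
  rw [h1, map_one] at h
  have := norm_nonneg (toH φ γ.el)
  nlinarith

theorem norm_toH_sub {φ : K →+* ℝ} (ha : φ a < 0) (hb : φ b < 0) (γ : NormOne a b) :
    ‖toH φ γ.el - 1‖ ^ 2 = φ (2 - 2 * γ.el.re) := by
  have h1 := norm_toH ha hb γ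
  have h2 : ‖toH φ γ.el‖ ^ 2 = 1 := by rw [h1, one_pow]
  rw [sq, ← Quaternion.normSq_eq_norm_mul_self, Quaternion.normSq_def'] at h2 ⊢
  have e0 : (toH φ γ.el - 1).re = (toH φ γ.el).re - 1 := by simp
  have e1 : (toH φ γ.el - 1).imI = (toH φ γ.el).imI := by simp
  have e2 : (toH φ γ.el - 1).imJ = (toH φ γ.el).imJ := by simp
  have e3 : (toH φ γ.el - 1).imK = (toH φ γ.el).imK := by simp
  have e4 : φ (2 - 2 * γ.el.re) = 2 - 2 * (toH φ γ.el).re := by
    simp [toH, map_ofNat]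
  rw [e0, e1, e2, e3, e4]
  linarith

theorem tr_toM (ψ : K →+* ℝ) (x : ℍ[K,a,b]) : 2 - (toM ψ x 0 0 + toM ψ x 1 1) = ψ (2 - 2 * x.re) := by
  simp [toM, map_ofNat]
  ring

theorem eq_one_of_toH {φ : K →+* ℝ} (ha : φ a < 0) (hb : φ b < 0) {γ : NormOne a b}
    (h : φ (2 - 2 * γ.el.re) = 0) : γ = 1 := by
  rw [← norm_toH_sub ha hb] at h
  have h1 : toH φ γ.el = 1 := by
    have := pow_eq_zero_iff (two_ne_zero) |>.1 h
    exact sub_eq_zero.1 (norm_eq_zero.1 this)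
  have hs : √(-φ a) ≠ 0 := (Real.sqrt_pos.2 (by linarith)).ne'
  have ht : √(-φ b) ≠ 0 := (Real.sqrt_pos.2 (by linarith)).ne'
  have hinj := φ.injective
  have k0 : φ γ.el.re = 1 := congrArg (fun q : ℍ[ℝ] => q.re) h1
  have k1 : √(-φ a) * φ γ.el.imI = 0 := congrArg (fun q : ℍ[ℝ] => q.imI) h1
  have k2 : √(-φ b) * φ γ.el.imJ = 0 := congrArg (fun q : ℍ[ℝ] => q.imJ) h1
  have k3 : √(-φ a) * √(-φ b) * φ γ.el.imK = 0 := congrArg (fun q : ℍ[ℝ] => q.imK) h1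
  have c1 : γ.el.imI = 0 := by
    have := (mul_eq_zero.1 k1).resolve_left hs
    exact (map_eq_zero φ).1 this
  have c2 : γ.el.imJ = 0 := by
    have := (mul_eq_zero.1 k2).resolve_left ht
    exact (map_eq_zero φ).1 this
  have c3 : γ.el.imK = 0 := by
    have := (mul_eq_zero.1 k3).resolve_left (mul_ne_zero hs ht)
    exact (map_eq_zero φ).1 this
  have c0 : γ.el.re = 1 := hinj (by rw [k0, map_one])
  apply NormOne.ext
  show γ.el = 1
  ext
  · rw [c0, QuaternionAlgebra.re_one]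
  · rw [c1, QuaternionAlgebra.imI_one]
  · rw [c2, QuaternionAlgebra.imJ_one]
  · rw [c3, QuaternionAlgebra.imK_one]

end algebra

section forms
variable {W V : Type}

/-- An isotropic linear form on the quaternions: `l (x X) = i l (x)` for some `X` with `X² = -1`. -/
def IsNull (l : ℍ[ℝ] →ₗ[ℝ] ℂ) : Prop :=
  ∃ X : ℍ[ℝ], X * X = -1 ∧ ∀ x, l (x * X) = Complex.I * l x

/-- A product of powers of isotropic linear forms. -/
noncomputable def nullProd [Fintype V] (n : V → ℕ) (l : V → (ℍ[ℝ] →ₗ[ℝ] ℂ)) (x : V → ℍ[ℝ]) : ℂ := ∏ v, l v (x v) ^ n v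

/-- The complex valued polynomials on `∏_{v ∈ V} ℍ[ℝ]` which are homogeneous harmonic of degree
`n v` in the variable `v`, i.e. the span of the products of powers of isotropic linear forms. -/
def Harm [Fintype V] (n : V → ℕ) : Submodule ℂ ((V → ℍ[ℝ]) → ℂ) :=
  Submodule.span ℂ {P | ∃ l : V → (ℍ[ℝ] →ₗ[ℝ] ℂ), (∀ v, IsNull (l v)) ∧ P = nullProd n l}

/-- `e` is a twice continuously differentiable function on the upper half plane and
`y² (∂²/∂x² + ∂²/∂y²) e = -lam e`. -/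
def IsEigen (e : UpperHalfPlane → ℂ) (lam : ℝ) : Prop :=
  ContDiffOn ℝ 2 (fun u : ℂ => e (ofComplex u)) {u | 0 < u.im} ∧
  ∀ u : ℂ, 0 < u.im →
    (u.im : ℂ) ^ 2 * Laplacian.laplacian (fun u : ℂ => e (ofComplex u)) u = -(lam : ℂ) * e (ofComplex u)

/-- The Möbius action of `SL₂(ℝ)` on the upper half plane. -/
noncomputable def moebius (g : SL(2, ℝ)) (z : UpperHalfPlane) : UpperHalfPlane := g • z

/-- The unit sphere `SU(2)` of Hamilton's quaternions. -/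
abbrev S3 : Type := Metric.sphere (0 : ℍ[ℝ]) 1

/-- The surface measure of the unit sphere. -/
noncomputable def area : Measure S3 := (volume : Measure ℍ[ℝ]).toSphere

/-- The invariant probability measure of the unit sphere. -/
noncomputable def surf : Measure S3 := (area univ)⁻¹ • area

/-- The measure on `F × ∏_{v ∈ V} SU(2)`. -/
noncomputable def formMeasure [Fintype W] [Fintype V] (F : Set (W → UpperHalfPlane)) :
    Measure ((W → UpperHalfPlane) × (V → S3)) :=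
  (volume.restrict F).prod (Measure.pi fun _ => surf)

/-- The scalar product over `F × ∏_{v ∈ V} SU(2)`. -/
noncomputable def petersson [Fintype W] [Fintype V] (F : Set (W → UpperHalfPlane))
    (f g : (W → UpperHalfPlane) → (V → ℍ[ℝ]) → ℂ) : ℂ :=
  ∫ p, f p.1 (fun v => (p.2 v).1) * conj (g p.1 (fun v => (p.2 v).1)) ∂(formMeasure F)

variable [Fintype W] [DecidableEq W] [Fintype V]

/-- A quaternion algebra `D = (a, b / K)` over a totally real field `K`, with algebraic integers `a`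
and `b`, split at the real places `ψ w`, `w ∈ W`, where `a` is positive, and ramified at the other
real places `φ v`, `v ∈ V`, where `a` and `b` are negative. -/
structure Setting (K : Type) [Field K] [NumberField K] (W V : Type) [Fintype W] [Fintype V] where
  a : 𝓞 K
  b : 𝓞 K
  ψ : W → K →+* ℝ
  φ : V → K →+* ℝ
  pos : ∀ w, 0 < ψ w a
  neg : ∀ v, φ v a < 0 ∧ φ v b < 0
  inj : Injective (Sum.elim ψ φ)
  card : Fintype.card W + Fintype.card V = Module.finrank ℚ K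

variable {K : Type} [Field K] [NumberField K] (S : Setting K W V)

/-- The group `D¹`. -/
abbrev Setting.D1 : Type := NormOne (S.a : K) (S.b : K)

/-- All coordinates of `x` lie in the ideal `𝔫`. -/
def AllIn {a b : K} (𝔫 : Ideal (𝓞 K)) (x : ℍ[K,a,b]) : Prop :=
  (∃ t ∈ 𝔫, (t : K) = x.re) ∧ (∃ t ∈ 𝔫, (t : K) = x.imI) ∧ (∃ t ∈ 𝔫, (t : K) = x.imJ) ∧ (∃ t ∈ 𝔫, (t : K) = x.imK)

/-- The action of `D¹` on `∏_{w ∈ W} ℍ`. -/
noncomputable def Setting.act (γ : S.D1) (z : W → UpperHalfPlane) : W → UpperHalfPlane :=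
  fun w => moebius (toSL (S.ψ w) (S.pos w) γ) (z w)

/-- The action of `D¹` on `∏_{v ∈ V} ℍ[ℝ]`. -/
noncomputable def Setting.rot (γ : S.D1) (x : V → ℍ[ℝ]) : V → ℍ[ℝ] :=
  fun v => toH (S.φ v) γ.el * x v

/-- `F` is a measurable set which meets almost every orbit of `Γ` on `∏_{w ∈ W} ℍ`, in finitely many points. -/
def Setting.Covers (Γ : Subgroup S.D1) (F : Set (W → UpperHalfPlane)) : Prop :=
  MeasurableSet F ∧ ∀ᵐ z, {γ | γ ∈ Γ ∧ S.act γ z ∈ F}.Finite ∧ {γ | γ ∈ Γ ∧ S.act γ z ∈ F}.Nonempty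

/-- `f` is an automorphic form for `Γ`, as a function on `∏_{w ∈ W} ℍ × ∏_{v ∈ V} SU(2)` (extended
to `∏_{w ∈ W} ℍ × ∏_{v ∈ V} ℍ[ℝ]` by homogeneity), of Laplace eigenvalues `lam w` and weights `n v`. -/
structure IsForm (Γ : Subgroup S.D1) (f : (W → UpperHalfPlane) → (V → ℍ[ℝ]) → ℂ) (lam : W → ℝ) (n : V → ℕ) :
    Prop where
  continuous : Continuous (uncurry f)
  laplace : ∀ w z x, IsEigen (fun u => f (update z w u) x) (lam w)
  weight : ∀ z, f z ∈ Harm n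
  invariant : ∀ γ ∈ Γ, ∀ z x, f (S.act γ z) (S.rot γ x) = f z x

/-- The `f j` are orthonormal automorphic forms for `Γ` of weight exactly `n`, with Laplace
eigenvalues at most `Λ w` in absolute value for `w ≠ w₀` and at most `1/4 - ϑ²` for `w = w₀`. -/
structure IsFamily (Γ : Subgroup S.D1) (F : Set (W → UpperHalfPlane)) (w₀ : W) (n : V → ℕ) (Λ : W → ℝ)
    {J : Type} [DecidableEq J] (f : J → (W → UpperHalfPlane) → (V → ℍ[ℝ]) → ℂ) (ϑ : J → ℝ) : Prop where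
  form : ∀ j, ∃ lam : W → ℝ, IsForm S Γ (f j) lam n ∧ (∀ w, w ≠ w₀ → |lam w| ≤ Λ w) ∧ lam w₀ ≤ 1 / 4 - ϑ j ^ 2
  orthonormal : ∀ i j, petersson F (f i) (f j) = if i = j then 1 else 0
  range : ∀ j, 0 ≤ ϑ j ∧ ϑ j ≤ 1 / 2

/-- The product of the dimensions `∏ (n_v + 1)`. -/
noncomputable def dims (n : V → ℕ) : ℝ := ∏ v, ((n v : ℝ) + 1)

/-- `N𝔫³ ∏ (n_v + 1)`. -/
noncomputable def cond (𝔫 : Ideal (𝓞 K)) (n : V → ℕ) : ℝ := (Ideal.absNorm 𝔫 : ℝ) ^ 3 * dims n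

/-- The bound `C (N𝔫³ ∏ (n_v + 1))^ε ∏_{w ≠ w₀} Λ_w ∏ (n_v + 1)²`. -/
noncomputable def bound (𝔫 : Ideal (𝓞 K)) (C ε : ℝ) (w₀ : W) (n : V → ℕ) (Λ : W → ℝ) : ℝ :=
  C * cond 𝔫 n ^ ε * (∏ w ∈ Finset.univ.erase w₀, Λ w) * dims n ^ 2

end forms

theorem countable_NormOne (K : Type) [Field K] [NumberField K] (a b : K) : Countable (NormOne a b) := by
  have h1 : Countable K := Countable.of_equiv _ (Module.finBasis ℚ K).equivFun.symm.toEquiv
  have h2 : Countable ℍ[K,a,b] := Countable.of_equiv _ (QuaternionAlgebra.equivTuple a 0 b).symm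
  exact Function.Injective.countable (f := fun x : NormOne a b => x.el) fun x y h => NormOne.ext h

section integral
variable {K : Type} [Field K] {𝔫 : Ideal (𝓞 K)}

/-- being in the ideal -/
def In (𝔫 : Ideal (𝓞 K)) (x : K) : Prop := ∃ t ∈ 𝔫, (t : K) = x

theorem In.add {x y : K} (hx : In 𝔫 x) (hy : In 𝔫 y) : In 𝔫 (x + y) := by
  obtain ⟨s, hs, rfl⟩ := hx
  obtain ⟨t, ht, rfl⟩ := hy
  exact ⟨s + t, 𝔫.add_mem hs ht, by push_cast; rfl⟩

theorem In.neg {x : K} (hx : In 𝔫 x) : In 𝔫 (-x) := by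
  obtain ⟨s, hs, rfl⟩ := hx
  exact ⟨-s, 𝔫.neg_mem hs, by push_cast; rfl⟩

theorem In.sub {x y : K} (hx : In 𝔫 x) (hy : In 𝔫 y) : In 𝔫 (x - y) := by
  rw [sub_eq_add_neg]
  exact hx.add hy.neg

theorem In.mul {x y : K} (hx : In (⊤ : Ideal (𝓞 K)) x) (hy : In 𝔫 y) : In 𝔫 (x * y) := by
  obtain ⟨s, hs, rfl⟩ := hx
  obtain ⟨t, ht, rfl⟩ := hy
  exact ⟨s * t, 𝔫.mul_mem_left s ht, by push_cast; rfl⟩

theorem In.mul' {x y : K} (hx : In 𝔫 x) (hy : In (⊤ : Ideal (𝓞 K)) y) : In 𝔫 (x * y) := by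
  rw [mul_comm]
  exact hy.mul hx

theorem In.coe (t : 𝓞 K) : In (⊤ : Ideal (𝓞 K)) (t : K) := ⟨t, Submodule.mem_top, rfl⟩

variable {a b : 𝓞 K}

theorem In.zero : In 𝔫 (0 : K) := ⟨0, 𝔫.zero_mem, by push_cast; rfl⟩

theorem AllIn.mul {x y : ℍ[K,(a : K),(b : K)]} (hx : AllIn (⊤ : Ideal (𝓞 K)) x) (hy : AllIn 𝔫 y) :
    AllIn 𝔫 (x * y) := by
  obtain ⟨x0, x1, x2, x3⟩ := x
  obtain ⟨y0, y1, y2, y3⟩ := y
  obtain ⟨h0, h1, h2, h3⟩ := hx
  obtain ⟨k0, k1, k2, k3⟩ := hy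
  change In ⊤ x0 at h0
  change In ⊤ x1 at h1
  change In ⊤ x2 at h2
  change In ⊤ x3 at h3
  change In 𝔫 y0 at k0
  change In 𝔫 y1 at k1
  change In 𝔫 y2 at k2
  change In 𝔫 y3 at k3
  have ha := In.coe (K := K) a
  have hb := In.coe (K := K) b
  rw [QuaternionAlgebra.mk_mul_mk]
  simp only [zero_mul, add_zero]
  refine ⟨?_, ?_, ?_, ?_⟩
  · exact (((h0.mul k0).add ((ha.mul h1).mul k1)).add ((hb.mul h2).mul k2)).sub (((ha.mul hb).mul h3).mul k3)
  · exact (((h0.mul k1).add (h1.mul k0)).sub ((hb.mul h2).mul k3)).add ((hb.mul h3).mul k2)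
  · exact (((h0.mul k2).add ((ha.mul h1).mul k3)).add (h2.mul k0)).sub ((ha.mul h3).mul k1)
  · exact (((h0.mul k3).add (h1.mul k2)).sub (h2.mul k1)).add (h3.mul k0)

theorem AllIn.mul' {x y : ℍ[K,(a : K),(b : K)]} (hx : AllIn 𝔫 x) (hy : AllIn (⊤ : Ideal (𝓞 K)) y) :
    AllIn 𝔫 (x * y) := by
  obtain ⟨x0, x1, x2, x3⟩ := x
  obtain ⟨y0, y1, y2, y3⟩ := y
  obtain ⟨h0, h1, h2, h3⟩ := hx
  obtain ⟨k0, k1, k2, k3⟩ := hy
  change In 𝔫 x0 at h0
  change In 𝔫 x1 at h1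
  change In 𝔫 x2 at h2
  change In 𝔫 x3 at h3
  change In ⊤ y0 at k0
  change In ⊤ y1 at k1
  change In ⊤ y2 at k2
  change In ⊤ y3 at k3
  have ha := In.coe (K := K) a
  have hb := In.coe (K := K) b
  rw [QuaternionAlgebra.mk_mul_mk]
  simp only [zero_mul, add_zero]
  refine ⟨?_, ?_, ?_, ?_⟩
  · exact (((h0.mul' k0).add ((ha.mul h1).mul' k1)).add ((hb.mul h2).mul' k2)).sub (((ha.mul hb).mul h3).mul' k3)
  · exact (((h0.mul' k1).add (h1.mul' k0)).sub ((hb.mul h2).mul' k3)).add ((hb.mul h3).mul' k2)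
  · exact (((h0.mul' k2).add ((ha.mul h1).mul' k3)).add (h2.mul' k0)).sub ((ha.mul h3).mul' k1)
  · exact (((h0.mul' k3).add (h1.mul' k2)).sub (h2.mul' k1)).add (h3.mul' k0)

theorem AllIn.bar {x : ℍ[K,(a : K),(b : K)]} (hx : AllIn 𝔫 x) : AllIn 𝔫 (bar x) := by
  obtain ⟨h0, h1, h2, h3⟩ := hx
  exact ⟨h0, In.neg h1, In.neg h2, In.neg h3⟩

/-- the principal congruence subgroup is normalised by the units of the order -/
theorem conj_mem {γ₀ γ : NormOne (a : K) (b : K)} (h0 : AllIn (⊤ : Ideal (𝓞 K)) γ₀.el)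
    (h : AllIn 𝔫 (γ.el - 1)) : AllIn 𝔫 ((γ₀ * γ * γ₀⁻¹).el - 1) := by
  have h1 : γ₀.el * bar γ₀.el = 1 := congrArg NormOne.el (mul_inv_cancel γ₀)
  have e : (γ₀ * γ * γ₀⁻¹).el - 1 = γ₀.el * (γ.el - 1) * bar γ₀.el := by
    have e2 : (γ₀ * γ * γ₀⁻¹).el = γ₀.el * γ.el * bar γ₀.el := rfl
    rw [e2, mul_sub, sub_mul, mul_one, h1]
  rw [e]
  exact (h0.mul h).mul' h0.bar

/-- the real part is a class function -/
theorem re_conj (γ₀ γ : NormOne (a : K) (b : K)) : (γ₀ * γ * γ₀⁻¹).el.re = γ.el.re := by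
  have e2 : (γ₀ * γ * γ₀⁻¹).el = γ₀.el * γ.el * bar γ₀.el := rfl
  rw [e2]
  have h0 := γ₀.nrd_el
  obtain ⟨⟨x0, x1, x2, x3⟩, hx⟩ := γ₀
  obtain ⟨⟨y0, y1, y2, y3⟩, hy⟩ := γ
  simp only [nrd] at h0
  simp only [Results.MP_8410ab_nt.SarnakXue.bar, QuaternionAlgebra.mk_mul_mk]
  linear_combination y0 * h0

end integral

section compact
variable {W V : Type} [Fintype W] [Fintype V] {K : Type} [Field K] [NumberField K] (S : Setting K W V)

/-- the points `z` for which `γ z` is in a box, for some unit `γ` of reduced norm one -/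
def Setting.Reg (M : ℝ) : Set (W → UpperHalfPlane) :=
  {z | ∃ γ : S.D1, AllIn ⊤ γ.el ∧ ∀ w, |(S.act γ z w).re| ≤ M ∧ 1 / M ≤ (S.act γ z w).im ∧ (S.act γ z w).im ≤ M}

/-- the quaternion with the given coordinates -/
def qt (p : Fin 4 → 𝓞 K) : ℍ[K, (S.a : K), (S.b : K)] := ⟨p 0, p 1, p 2, p 3⟩

/-- the reduced norm, as an integer -/
def nu (p : Fin 4 → 𝓞 K) : 𝓞 K := p 0 ^ 2 - S.a * p 1 ^ 2 - S.b * p 2 ^ 2 + S.a * S.b * p 3 ^ 2

theorem coe_nu (p : Fin 4 → 𝓞 K) : (nu S p : K) = nrd (qt S p) := by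
  simp only [nu, qt, nrd]
  push_cast
  rfl

theorem allIn_qt (p : Fin 4 → 𝓞 K) : AllIn (⊤ : Ideal (𝓞 K)) (qt S p) :=
  ⟨⟨p 0, Submodule.mem_top, rfl⟩, ⟨p 1, Submodule.mem_top, rfl⟩, ⟨p 2, Submodule.mem_top, rfl⟩,
    ⟨p 3, Submodule.mem_top, rfl⟩⟩

omit [NumberField K] in
theorem toM_smul {a b : K} (ψ : K →+* ℝ) (t : K) (x : ℍ[K,a,b]) : toM ψ (t • x) = ψ t • toM ψ x := by
  simp only [toM, QuaternionAlgebra.re_smul, QuaternionAlgebra.imI_smul, QuaternionAlgebra.imJ_smul,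
    QuaternionAlgebra.imK_smul, smul_eq_mul, map_mul]
  ext i j
  fin_cases i <;> fin_cases j <;> simp <;> ring

open Pool.Agent.H496.R6 in
theorem exists_elt [DecidableEq W] [DecidableEq V] [Nonempty V] : ∃ c : ℝ, 1 ≤ c ∧
    ∀ z : W → UpperHalfPlane, ∃ p : Fin 4 → 𝓞 K, p ≠ 0 ∧
      (∀ w i j, |(toM (S.ψ w) (qt S p) * GG (z w)) i j| ≤ c) ∧ ∀ v l, |S.φ v (p l : K)| ≤ c := by
  have hcard : Fintype.card (W ⊕ V) = Module.finrank ℚ K := by rw [Fintype.card_sum, S.card]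
  have hb0 : (S.b : K) ≠ 0 := by
    intro h
    obtain ⟨v₀⟩ := ‹Nonempty V›
    have := (S.neg v₀).2
    rw [h, map_zero] at this
    exact lt_irrefl _ this
  obtain ⟨c, hc, H⟩ := mink_field (Sum.elim S.ψ S.φ) S.inj hcard (|∏ w, (4 * √(S.ψ w S.a) ^ 2 * S.ψ w S.b)|)
    (abs_nonneg _)
  refine ⟨c, hc, fun z => ?_⟩
  obtain ⟨p, hp0, hp⟩ := H (Sum.elim (fun w => TT (√(S.ψ w S.a)) (S.ψ w S.b) (z w)) (fun _ => 1)) (by
    rintro (w | v)
    · rw [Sum.elim_inl, det_TT]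
      have h1 : √(S.ψ w S.a) ≠ 0 := (Real.sqrt_pos.2 (S.pos w)).ne'
      have h2 : S.ψ w S.b ≠ 0 := (map_ne_zero (S.ψ w)).2 hb0
      positivity
    · rw [Sum.elim_inr, Matrix.det_one]
      exact one_ne_zero) (by
    rw [Fintype.prod_sum_type]
    simp only [Sum.elim_inl, Sum.elim_inr, det_TT, Matrix.det_one, Finset.prod_const_one, mul_one]
    exact le_rfl)
  refine ⟨p, hp0, fun w => ?_, fun v l => ?_⟩
  · have h := fun k => hp (Sum.inl w) k
    simp only [Sum.elim_inl] at h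
    have h0 := h 0
    have h1 := h 1
    have h2 := h 2
    have h3 := h 3
    simp only [TT, Fin.sum_univ_four, Matrix.of_apply, Matrix.cons_val', Matrix.cons_val_zero, Matrix.cons_val_one,
      Matrix.cons_val_two, Matrix.cons_val_three, Matrix.cons_val_fin_one, Matrix.head_cons, Matrix.tail_cons,
      zero_mul, add_zero, zero_add] at h0 h1 h2 h3
    intro i j
    fin_cases i <;> fin_cases j
    · refine le_of_eq_of_le (congrArg abs ?_) h0
      simp [toM, GG, Matrix.mul_apply, Fin.sum_univ_two, qt]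
      ring
    · refine le_of_eq_of_le (congrArg abs ?_) h1
      simp [toM, GG, Matrix.mul_apply, Fin.sum_univ_two, qt]
      ring
    · refine le_of_eq_of_le (congrArg abs ?_) h2
      simp [toM, GG, Matrix.mul_apply, Fin.sum_univ_two, qt]
      ring
    · refine le_of_eq_of_le (congrArg abs ?_) h3
      simp [toM, GG, Matrix.mul_apply, Fin.sum_univ_two, qt]
      ring
  · have h := hp (Sum.inr v) l
    simp only [Sum.elim_inr, Matrix.one_apply, ite_mul, one_mul, zero_mul, Finset.sum_ite_eq, Finset.mem_univ,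
      if_true] at h
    exact h

theorem nu_ne [Nonempty V] {p : Fin 4 → 𝓞 K} (hp : p ≠ 0) : nu S p ≠ 0 := by
  intro h
  apply hp
  obtain ⟨v⟩ := ‹Nonempty V›
  obtain ⟨ha, hb⟩ := S.neg v
  have h1 : S.φ v (nu S p : K) = 0 := by
    rw [h]
    simp
  rw [coe_nu] at h1
  simp only [nrd, qt, map_add, map_sub, map_mul, map_pow] at h1
  set A := S.φ v S.a
  set B := S.φ v S.b
  set x0 := S.φ v (p 0 : K) with hx0
  set x1 := S.φ v (p 1 : K) with hx1
  set x2 := S.φ v (p 2 : K) with hx2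
  set x3 := S.φ v (p 3 : K) with hx3
  have hAB : 0 < A * B := mul_pos_of_neg_of_neg ha hb
  have t0 : 0 ≤ x0 ^ 2 := sq_nonneg _
  have t1 : 0 ≤ -A * x1 ^ 2 := mul_nonneg (by linarith) (sq_nonneg _)
  have t2 : 0 ≤ -B * x2 ^ 2 := mul_nonneg (by linarith) (sq_nonneg _)
  have t3 : 0 ≤ A * B * x3 ^ 2 := mul_nonneg hAB.le (sq_nonneg _)
  have e0 : x0 = 0 := pow_eq_zero_iff two_ne_zero |>.1 (by linarith)
  have e1 : x1 = 0 := by
    have : -A * x1 ^ 2 = 0 := by linarith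
    rcases mul_eq_zero.1 this with h | h
    · linarith
    · exact pow_eq_zero_iff two_ne_zero |>.1 h
  have e2 : x2 = 0 := by
    have : -B * x2 ^ 2 = 0 := by linarith
    rcases mul_eq_zero.1 this with h | h
    · linarith
    · exact pow_eq_zero_iff two_ne_zero |>.1 h
  have e3 : x3 = 0 := by
    have : A * B * x3 ^ 2 = 0 := by linarith
    rcases mul_eq_zero.1 this with h | h
    · linarith
    · exact pow_eq_zero_iff two_ne_zero |>.1 h
  have hz : ∀ x : 𝓞 K, S.φ v (x : K) = 0 → x = 0 := by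
    intro x hx
    have := (map_eq_zero (S.φ v)).1 hx
    exact NumberField.RingOfIntegers.ext this
  funext l
  fin_cases l
  · exact hz _ e0
  · exact hz _ e1
  · exact hz _ e2
  · exact hz _ e3

open Pool.Agent.H496.R6 in
theorem nu_split {c : ℝ} (z : W → UpperHalfPlane) (p : Fin 4 → 𝓞 K) (w : W)
    (h : ∀ i j, |(toM (S.ψ w) (qt S p) * GG (z w)) i j| ≤ c) : |S.ψ w (nu S p : K)| ≤ 2 * c ^ 2 := by
  rw [coe_nu, ← det_toM (S.pos w)]
  have h1 : (toM (S.ψ w) (qt S p)).det = (toM (S.ψ w) (qt S p) * GG (z w)).det := by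
    rw [Matrix.det_mul]
    have : (GG (z w)).det = 1 := by
      have hq0 : √(z w).im ≠ 0 := (Real.sqrt_pos.2 (z w).im_pos).ne'
      rw [GG, Matrix.det_fin_two_of]
      field_simp
      ring
    rw [this, mul_one]
  rw [h1, Matrix.det_fin_two]
  have hc0 : 0 ≤ c := (abs_nonneg _).trans (h 0 0)
  refine (abs_sub _ _).trans ?_
  rw [abs_mul, abs_mul]
  have e1 := mul_le_mul (h 0 0) (h 1 1) (abs_nonneg _) hc0
  have e2 := mul_le_mul (h 0 1) (h 1 0) (abs_nonneg _) hc0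
  nlinarith

theorem nu_ram {c : ℝ} (p : Fin 4 → 𝓞 K) (v : V) (h : ∀ l, |S.φ v (p l : K)| ≤ c) :
    |S.φ v (nu S p : K)| ≤ c ^ 2 * (1 + |S.φ v S.a| + |S.φ v S.b| + |S.φ v S.a| * |S.φ v S.b|) := by
  rw [coe_nu]
  simp only [nrd, qt, map_add, map_sub, map_mul, map_pow]
  have hs : ∀ l, S.φ v (p l : K) ^ 2 ≤ c ^ 2 := fun l => by
    rw [← sq_abs]
    exact pow_le_pow_left₀ (abs_nonneg _) (h l) 2
  have h0 := hs 0
  have h1 := hs 1
  have h2 := hs 2
  have h3 := hs 3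
  have k0 : |S.φ v (p 0 : K) ^ 2| ≤ c ^ 2 := by rwa [abs_of_nonneg (sq_nonneg _)]
  have k1 : |S.φ v S.a * S.φ v (p 1 : K) ^ 2| ≤ |S.φ v S.a| * c ^ 2 := by
    rw [abs_mul, abs_of_nonneg (sq_nonneg (S.φ v (p 1 : K)))]
    gcongr
  have k2 : |S.φ v S.b * S.φ v (p 2 : K) ^ 2| ≤ |S.φ v S.b| * c ^ 2 := by
    rw [abs_mul, abs_of_nonneg (sq_nonneg (S.φ v (p 2 : K)))]
    gcongr
  have k3 : |S.φ v S.a * S.φ v S.b * S.φ v (p 3 : K) ^ 2| ≤ |S.φ v S.a| * |S.φ v S.b| * c ^ 2 := by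
    rw [abs_mul, abs_mul, abs_of_nonneg (sq_nonneg (S.φ v (p 3 : K)))]
    gcongr
  refine (abs_add_le _ _).trans ?_
  have i1 := abs_sub (S.φ v (p 0 : K) ^ 2 - S.φ v S.a * S.φ v (p 1 : K) ^ 2) (S.φ v S.b * S.φ v (p 2 : K) ^ 2)
  have i2 := abs_sub (S.φ v (p 0 : K) ^ 2) (S.φ v S.a * S.φ v (p 1 : K) ^ 2)
  linarith

theorem reg_mono {M M' : ℝ} (hM : 1 ≤ M) (h : M ≤ M') {z : W → UpperHalfPlane} (hz : z ∈ S.Reg M) : z ∈ S.Reg M' := by
  obtain ⟨γ, h1, h2⟩ := hz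
  refine ⟨γ, h1, fun w => ?_⟩
  obtain ⟨a1, a2, a3⟩ := h2 w
  refine ⟨a1.trans h, le_trans ?_ a2, a3.trans h⟩
  exact one_div_le_one_div_of_le (by linarith) h

/-- `γ = x'⁻¹ x` -/
theorem exists_unit {p p' u : Fin 4 → 𝓞 K} {ν : 𝓞 K} (hν : ν ≠ 0) (h : nu S p = ν) (h' : nu S p' = ν)
    (hu : ∀ l, p l - p' l = ν * u l) : ∃ γ : S.D1, AllIn (⊤ : Ideal (𝓞 K)) γ.el ∧
      (ν : K) • γ.el = bar (qt S p') * qt S p := by
  have hνK : (ν : K) ≠ 0 := by
    intro h0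
    exact hν (NumberField.RingOfIntegers.ext h0)
  have hp : ∀ l, (p l : K) = p' l + ν * u l := by
    intro l
    have h1 : p l = p' l + ν * u l := by linear_combination hu l
    rw [h1]
    push_cast
    rfl
  have hn' : nrd (qt S p') = (ν : K) := by rw [← coe_nu, h']
  have hn : nrd (qt S p) = (ν : K) := by rw [← coe_nu, h]
  have key : (ν : K) • (1 + bar (qt S p') * qt S u) = bar (qt S p') * qt S p := by
    have e1 : bar (qt S p') * qt S p = bar (qt S p') * qt S p' + (ν : K) • (bar (qt S p') * qt S u) := by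
      simp only [qt, bar, QuaternionAlgebra.mk_mul_mk]
      ext
      · simp only [QuaternionAlgebra.re_add, QuaternionAlgebra.re_smul, smul_eq_mul, hp]
        ring
      · simp only [QuaternionAlgebra.imI_add, QuaternionAlgebra.imI_smul, smul_eq_mul, hp]
        ring
      · simp only [QuaternionAlgebra.imJ_add, QuaternionAlgebra.imJ_smul, smul_eq_mul, hp]
        ring
      · simp only [QuaternionAlgebra.imK_add, QuaternionAlgebra.imK_smul, smul_eq_mul, hp]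
        ring
    have e2 : bar (qt S p') * qt S p' = (ν : K) • 1 := by
      rw [← hn']
      simp only [qt, bar, QuaternionAlgebra.mk_mul_mk, nrd]
      ext
      · simp only [QuaternionAlgebra.re_smul, QuaternionAlgebra.re_one, smul_eq_mul]
        ring
      · simp only [QuaternionAlgebra.imI_smul, QuaternionAlgebra.imI_one, smul_eq_mul]
        ring
      · simp only [QuaternionAlgebra.imJ_smul, QuaternionAlgebra.imJ_one, smul_eq_mul]
        ring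
      · simp only [QuaternionAlgebra.imK_smul, QuaternionAlgebra.imK_one, smul_eq_mul]
        ring
    rw [e1, e2, smul_add]
  have hnrd : nrd (1 + bar (qt S p') * qt S u) = 1 := by
    have e1 : nrd ((ν : K) • (1 + bar (qt S p') * qt S u)) = (ν : K) ^ 2 * nrd (1 + bar (qt S p') * qt S u) := by
      simp only [nrd, QuaternionAlgebra.re_smul, QuaternionAlgebra.imI_smul, QuaternionAlgebra.imJ_smul,
        QuaternionAlgebra.imK_smul, smul_eq_mul]
      ring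
    rw [key, nrd_mul, nrd_bar, hn', hn] at e1
    have e2 : (ν : K) ^ 2 * (nrd (1 + bar (qt S p') * qt S u) - 1) = 0 := by
      rw [mul_sub, ← e1]
      ring
    have e3 := (mul_eq_zero.1 e2).resolve_left (pow_ne_zero 2 hνK)
    linear_combination e3
  refine ⟨⟨1 + bar (qt S p') * qt S u, hnrd⟩, ?_, key⟩
  have h1 : AllIn (⊤ : Ideal (𝓞 K)) (bar (qt S p') * qt S u) := (allIn_qt S p').bar.mul (allIn_qt S u)
  obtain ⟨⟨t0, -, e0⟩, ⟨t1, -, e1⟩, ⟨t2, -, e2⟩, ⟨t3, -, e3⟩⟩ := h1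
  refine ⟨⟨1 + t0, Submodule.mem_top, ?_⟩, ⟨t1, Submodule.mem_top, ?_⟩, ⟨t2, Submodule.mem_top, ?_⟩,
    ⟨t3, Submodule.mem_top, ?_⟩⟩
  · rw [QuaternionAlgebra.re_add, QuaternionAlgebra.re_one, ← e0]
    push_cast
    rfl
  · rw [QuaternionAlgebra.imI_add, QuaternionAlgebra.imI_one, ← e1, zero_add]
  · rw [QuaternionAlgebra.imJ_add, QuaternionAlgebra.imJ_one, ← e2, zero_add]
  · rw [QuaternionAlgebra.imK_add, QuaternionAlgebra.imK_one, ← e3, zero_add]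

open Pool.Agent.H496.R6 in
/-- every orbit of the unit group meets a fixed box -/
theorem reg_univ [DecidableEq W] [Nonempty V] : ∃ M : ℝ, 1 ≤ M ∧ ∀ z, z ∈ S.Reg M := by
  classical
  rcases isEmpty_or_nonempty W with hW | ⟨⟨w₀⟩⟩
  · refine ⟨1, le_rfl, fun z => ⟨1, ?_, fun w => hW.elim w⟩⟩
    exact ⟨⟨1, Submodule.mem_top, rfl⟩, ⟨0, Submodule.mem_top, rfl⟩, ⟨0, Submodule.mem_top, rfl⟩,
      ⟨0, Submodule.mem_top, rfl⟩⟩
  obtain ⟨c, hc, H⟩ := exists_elt S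
  choose p hp0 hpW hpV using H
  set B : ℝ := 2 * c ^ 2 + ∑ v, c ^ 2 * (1 + |S.φ v S.a| + |S.φ v S.b| + |S.φ v S.a| * |S.φ v S.b|) with hB
  have hB1 : ∀ v, c ^ 2 * (1 + |S.φ v S.a| + |S.φ v S.b| + |S.φ v S.a| * |S.φ v S.b|) ≤ B := by
    intro v
    have h1 := Finset.single_le_sum (f := fun v => c ^ 2 * (1 + |S.φ v S.a| + |S.φ v S.b| + |S.φ v S.a| * |S.φ v S.b|))
      (fun v _ => by positivity) (Finset.mem_univ v)
    have h2 : 0 ≤ 2 * c ^ 2 := by positivity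
    rw [hB]
    linarith
  have hB2 : 2 * c ^ 2 ≤ B := by
    rw [hB]
    have : 0 ≤ ∑ v, c ^ 2 * (1 + |S.φ v S.a| + |S.φ v S.b| + |S.φ v S.a| * |S.φ v S.b|) :=
      Finset.sum_nonneg fun v _ => by positivity
    linarith
  have hB0 : 0 < B := lt_of_lt_of_le (by positivity) hB2
  have hfin := finite_box S.ψ S.φ S.inj S.card w₀ hB0
  set Fs : Finset (𝓞 K) := hfin.toFinset.filter (fun x => x ≠ 0) with hFs
  set m0 : 𝓞 K := ∏ ν ∈ Fs, ν with hm0
  have hm00 : m0 ≠ 0 := Finset.prod_ne_zero_iff.2 fun ν hν => (Finset.mem_filter.1 hν).2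
  have hfq : Finite (𝓞 K ⧸ Ideal.span {m0}) := by
    refine Ideal.finiteQuotientOfFreeOfNeBot _ ?_
    rwa [Ne, Ideal.span_singleton_eq_bot]
  have hmem : ∀ z, nu S (p z) ∈ Fs := by
    intro z
    rw [hFs, Finset.mem_filter, Set.Finite.mem_toFinset]
    refine ⟨⟨fun w => ?_, fun v => ?_⟩, nu_ne S (hp0 z)⟩
    · exact (nu_split S z (p z) w (hpW z w)).trans hB2
    · exact (nu_ram S (p z) v (hpV z v)).trans (hB1 v)
  set key : (W → UpperHalfPlane) → 𝓞 K × (Fin 4 → 𝓞 K ⧸ Ideal.span {m0}) := fun z =>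
    (nu S (p z), fun l => Ideal.Quotient.mk _ (p z l)) with hkeydef
  have hkey : (Set.range key).Finite := by
    refine (Fs.finite_toSet.prod (Set.finite_univ (α := Fin 4 → 𝓞 K ⧸ Ideal.span {m0}))).subset ?_
    rintro _ ⟨z, rfl⟩
    exact ⟨hmem z, mem_univ _⟩
  have hM : ∀ κ, ∃ M : ℝ, 1 ≤ M ∧ ∀ z, key z = κ → z ∈ S.Reg M := by
    intro κ
    by_cases hex : ∃ z', key z' = κ
    swap
    · exact ⟨1, le_rfl, fun z hz => absurd ⟨z, hz⟩ hex⟩
    obtain ⟨z', hz'⟩ := hex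
    set ν : 𝓞 K := nu S (p z') with hν
    have hν0 : ν ≠ 0 := nu_ne S (hp0 z')
    have hνm : ν ∣ m0 := Finset.dvd_prod_of_mem _ (hmem z')
    set A : W → Matrix (Fin 2) (Fin 2) ℝ := fun w => toM (S.ψ w) (bar (qt S (p z'))) with hA
    set R : ℝ := 1 + ∑ w, ∑ i, ∑ k, |A w i k| * c / |S.ψ w ν| with hR
    have hterm : ∀ w i k, 0 ≤ |A w i k| * c / |S.ψ w ν| := fun w i k => by positivity
    have hR1 : 1 ≤ R := by
      have : 0 ≤ ∑ w, ∑ i, ∑ k, |A w i k| * c / |S.ψ w ν| :=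
        Finset.sum_nonneg fun w _ => Finset.sum_nonneg fun i _ => Finset.sum_nonneg fun k _ => hterm w i k
      rw [hR]
      linarith
    have hRw : ∀ w i, ∑ k, |A w i k| * c / |S.ψ w ν| ≤ R := by
      intro w i
      have h1 : ∑ k, |A w i k| * c / |S.ψ w ν| ≤ ∑ i, ∑ k, |A w i k| * c / |S.ψ w ν| :=
        Finset.single_le_sum (f := fun i => ∑ k, |A w i k| * c / |S.ψ w ν|)
          (fun i _ => Finset.sum_nonneg fun k _ => hterm w i k) (Finset.mem_univ i)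
      have h2 : ∑ i, ∑ k, |A w i k| * c / |S.ψ w ν| ≤ ∑ w, ∑ i, ∑ k, |A w i k| * c / |S.ψ w ν| :=
        Finset.single_le_sum (f := fun w => ∑ i, ∑ k, |A w i k| * c / |S.ψ w ν|)
          (fun w _ => Finset.sum_nonneg fun i _ => Finset.sum_nonneg fun k _ => hterm w i k) (Finset.mem_univ w)
      rw [hR]
      linarith
    refine ⟨2 * R ^ 2, by nlinarith, fun z hz => ?_⟩
    rw [← hz'] at hz
    have hn : nu S (p z) = ν := congrArg Prod.fst hz
    have hq : ∀ l, ∃ u, p z l - p z' l = ν * u := by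
      intro l
      have h1 : Ideal.Quotient.mk (Ideal.span {m0}) (p z l) = Ideal.Quotient.mk _ (p z' l) :=
        congrFun (congrArg Prod.snd hz) l
      rw [Ideal.Quotient.eq, Ideal.mem_span_singleton] at h1
      exact hνm.trans h1
    choose u hu using hq
    obtain ⟨γ, hγ, hγ2⟩ := exists_unit S hν0 hn rfl hu
    refine ⟨γ, hγ, fun w => ?_⟩
    have hψν : S.ψ w ν ≠ 0 := by
      rw [Ne, map_eq_zero]
      intro h0
      exact hν0 (NumberField.RingOfIntegers.ext h0)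
    refine box_of_entries (toSL (S.ψ w) (S.pos w) γ) (z w) hR1 fun i j => ?_
    have e1 : S.ψ w ν • toM (S.ψ w) γ.el = A w * toM (S.ψ w) (qt S (p z)) := by
      rw [hA]
      simp only
      rw [← toM_mul (S.pos w), ← hγ2, toM_smul]
    have e2 : (toM (S.ψ w) γ.el * GG (z w)) i j =
        ∑ k, A w i k * (toM (S.ψ w) (qt S (p z)) * GG (z w)) k j / S.ψ w ν := by
      have e3 : S.ψ w ν • (toM (S.ψ w) γ.el * GG (z w)) = A w * (toM (S.ψ w) (qt S (p z)) * GG (z w)) := by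
        rw [← Matrix.smul_mul, e1, Matrix.mul_assoc]
      have e4 : S.ψ w ν * (toM (S.ψ w) γ.el * GG (z w)) i j =
          ∑ k, A w i k * (toM (S.ψ w) (qt S (p z)) * GG (z w)) k j := by
        have e5 := congrFun (congrFun e3 i) j
        rw [Matrix.smul_apply, smul_eq_mul] at e5
        rw [e5]
        exact Matrix.mul_apply
      rw [← Finset.sum_div, ← e4, mul_div_cancel_left₀ _ hψν]
    show |(toM (S.ψ w) γ.el * GG (z w)) i j| ≤ R
    rw [e2]
    refine (Finset.abs_sum_le_sum_abs _ _).trans (le_trans (Finset.sum_le_sum fun k _ => ?_) (hRw w i))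
    rw [abs_div, abs_mul]
    have := hpW z w k j
    gcongr
  choose Mf hMf1 hMf using hM
  obtain ⟨M, hM⟩ := (hkey.image Mf).bddAbove
  refine ⟨max M 1, le_max_right _ _, fun z => ?_⟩
  exact reg_mono S (hMf1 _) (le_trans (hM (mem_image_of_mem _ (mem_range_self z))) (le_max_left _ _)) (hMf _ z rfl)

end compact

section logs

theorem succ_le_rpow {δ : ℝ} (hδ : 0 < δ) (k : ℕ) :
    (k : ℝ) + 1 ≤ (1 + 1 / ((2 : ℝ) ^ δ - 1)) * ((2 : ℝ) ^ k) ^ δ := by
  have h1 : 1 < (2 : ℝ) ^ δ := Real.one_lt_rpow (by norm_num) hδ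
  set x : ℝ := (2 : ℝ) ^ δ - 1 with hx
  have hx0 : 0 < x := by linarith
  have h2 : ((2 : ℝ) ^ k) ^ δ = (1 + x) ^ k := by
    rw [hx, add_sub_cancel, ← Real.rpow_natCast, ← Real.rpow_mul (by norm_num), ← Real.rpow_natCast,
      ← Real.rpow_mul (by norm_num), mul_comm]
  rw [h2]
  have h3 := one_add_mul_le_pow (a := x) (by linarith) k
  have h4 : (1 + 1 / x) * (1 + k * x) ≤ (1 + 1 / x) * (1 + x) ^ k := mul_le_mul_of_nonneg_left h3 (by positivity)
  refine le_trans ?_ h4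
  have h5 : (1 + 1 / x) * (1 + k * x) = 1 + k * x + 1 / x + k := by
    field_simp
    ring
  rw [h5]
  have : 0 ≤ k * x := by positivity
  have : 0 < 1 / x := by positivity
  linarith

open Pool.Agent.H496.R6 Pool.Agent.H496.R4 in
theorem nsc_le {δ : ℝ} (hδ : 0 < δ) {U : ℝ} (hU : 1 ≤ U) :
    (nsc U : ℝ) ≤ (1 + 1 / ((2 : ℝ) ^ δ - 1)) * (2 * U) ^ δ := by
  have h1 : 1 < (2 : ℝ) ^ δ := Real.one_lt_rpow (by norm_num) hδ
  have h2 : (2 : ℝ) ^ Nat.log 2 ⌊2 * U⌋₊ ≤ 2 * U := nsc_pow hU (by rw [nsc]; simp)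
  rw [nsc]
  push_cast
  refine (succ_le_rpow hδ _).trans ?_
  have : 0 < 1 / ((2 : ℝ) ^ δ - 1) := by
    apply one_div_pos.2
    linarith
  gcongr

open Pool.Agent.H496.R6 Pool.Agent.H496.R4 in
theorem scl_prod_le {V : Type} [Fintype V] {δ : ℝ} (hδ : 0 < δ) (n : V → ℕ) :
    ∏ v, ((scl (n v) : ℝ) + 1) ≤
      ((1 + 1 / ((2 : ℝ) ^ δ - 1)) * 2 ^ δ) ^ Fintype.card V * (∏ v, ((n v : ℝ) + 1)) ^ δ := by
  have h1 : 1 < (2 : ℝ) ^ δ := Real.one_lt_rpow (by norm_num) hδ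
  have h0 : 0 < 1 / ((2 : ℝ) ^ δ - 1) := by
    apply one_div_pos.2
    linarith
  rw [← Finset.card_univ, ← Finset.prod_const, ← Real.finsetProd_rpow _ _ (fun v _ => by positivity),
    ← Finset.prod_mul_distrib]
  refine Finset.prod_le_prod (fun v _ => by positivity) fun v _ => ?_
  refine (succ_le_rpow hδ _).trans ?_
  rw [mul_assoc, ← Real.mul_rpow (by norm_num) (by positivity)]
  have h2 := scl_le (n v)
  gcongr

end logs

section count
variable {W V : Type} [Fintype W] [Fintype V] {K : Type} [Field K] [NumberField K] (S : Setting K W V)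

/-- the homomorphism at a split place -/
noncomputable def Setting.hom (Γ : Subgroup S.D1) (w : W) : Γ →* SL(2, ℝ) where
  toFun γ := toSL (S.ψ w) (S.pos w) γ.1
  map_one' := Subtype.ext (toM_one (S.ψ w))
  map_mul' x y := Subtype.ext (toM_mul (S.pos w) x.1.el y.1.el)

/-- the homomorphism at a ramified place -/
noncomputable def Setting.homH (Γ : Subgroup S.D1) (v : V) : Γ →* ℍ[ℝ] where
  toFun γ := toH (S.φ v) γ.1.el
  map_one' := toH_one (S.φ v)
  map_mul' x y := toH_mul (S.neg v).1 (S.neg v).2 x.1.el y.1.el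

theorem norm_homH (Γ : Subgroup S.D1) (v : V) (γ : Γ) : ‖S.homH Γ v γ‖ = 1 :=
  norm_toH (S.neg v).1 (S.neg v).2 (γ : NormOne (S.a : K) (S.b : K))

theorem toSL_mul (w : W) (x y : S.D1) : toSL (S.ψ w) (S.pos w) (x * y) =
    toSL (S.ψ w) (S.pos w) x * toSL (S.ψ w) (S.pos w) y := Subtype.ext (toM_mul (S.pos w) x.el y.el)

theorem exists_H [Nonempty V] : ∃ H : ℝ, 1 ≤ H ∧ (∀ v, 1 ≤ H * √(-S.φ v S.a)) ∧ (∀ v, 1 ≤ H * √(-S.φ v S.b)) ∧
    (∀ w, 1 + √(S.ψ w S.a) ≤ H) ∧ (∀ w, 1 ≤ H * √(S.ψ w S.a)) ∧ ∀ w, 1 ≤ H * |S.ψ w S.b| := by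
  obtain ⟨v₀⟩ := ‹Nonempty V›
  have hb0 : (S.b : K) ≠ 0 := by
    intro h
    have := (S.neg v₀).2
    rw [h, map_zero] at this
    exact lt_irrefl _ this
  have key : ∀ {ι : Type} [Fintype ι] (g : ι → ℝ), (∀ i, 0 < g i) → ∃ H : ℝ, 1 ≤ H ∧ ∀ H' ≥ H, ∀ i, 1 ≤ H' * g i := by
    intro ι _ g hg
    refine ⟨1 + ∑ i, 1 / g i, ?_, ?_⟩
    · have : 0 ≤ ∑ i, 1 / g i := Finset.sum_nonneg fun i _ => by
        have := hg i
        positivity
      linarith
    · intro H' hH' i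
      have h1 : 1 / g i ≤ ∑ i, 1 / g i := Finset.single_le_sum (f := fun i => 1 / g i) (fun i _ => by
        have := hg i
        positivity) (Finset.mem_univ i)
      have h2 : 1 / g i ≤ H' := by linarith
      rw [div_le_iff₀ (hg i)] at h2
      exact h2
  obtain ⟨H1, h1, k1⟩ := key (fun v => √(-S.φ v S.a)) fun v => Real.sqrt_pos.2 (by linarith [(S.neg v).1])
  obtain ⟨H2, h2, k2⟩ := key (fun v => √(-S.φ v S.b)) fun v => Real.sqrt_pos.2 (by linarith [(S.neg v).2])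
  obtain ⟨H3, h3, k3⟩ := key (fun w => √(S.ψ w S.a)) fun w => Real.sqrt_pos.2 (S.pos w)
  obtain ⟨H4, h4, k4⟩ := key (fun w => |S.ψ w S.b|) fun w => abs_pos.2 ((map_ne_zero (S.ψ w)).2 hb0)
  obtain ⟨H5, h5, k5⟩ : ∃ H : ℝ, 0 ≤ H ∧ ∀ w, 1 + √(S.ψ w S.a) ≤ H := by
    refine ⟨∑ w, (1 + √(S.ψ w S.a)), Finset.sum_nonneg fun w _ => by positivity, fun w => ?_⟩
    exact Finset.single_le_sum (f := fun w => 1 + √(S.ψ w S.a)) (fun w _ => by positivity) (Finset.mem_univ w)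
  refine ⟨H1 + H2 + H3 + H4 + H5, by linarith, k1 _ ?_, k2 _ ?_, fun w => ?_, k3 _ ?_, k4 _ ?_⟩
  · show H1 ≤ _
    linarith
  · show H2 ≤ _
    linarith
  · have := k5 w
    linarith
  · show H3 ≤ _
    linarith
  · show H4 ≤ _
    linarith

theorem coord_bound {X0 X1 X2 X3 α β E H : ℝ} (hH : 1 ≤ H) (hE0 : 0 ≤ E) (hα0 : 0 ≤ α) (hHα : 1 ≤ H * α)
    (hHb : 1 ≤ H * |β|) (e00 : |X0 + α * X1| ≤ E) (e11 : |X0 - α * X1| ≤ E) (e01 : |β * (X2 + α * X3)| ≤ E)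
    (e10 : |X2 - α * X3| ≤ E) : |X0| ≤ H ^ 2 * E ∧ |X1| ≤ H ^ 2 * E ∧ |X2| ≤ H ^ 2 * E ∧ |X3| ≤ H ^ 2 * E := by
  have hH0 : 0 ≤ H := by linarith
  have f00 := abs_le.1 e00
  have f11 := abs_le.1 e11
  have f10 := abs_le.1 e10
  have g01 : |X2 + α * X3| ≤ H * E := by
    rw [abs_mul] at e01
    calc |X2 + α * X3| = 1 * |X2 + α * X3| := (one_mul _).symm
      _ ≤ (H * |β|) * |X2 + α * X3| := mul_le_mul_of_nonneg_right hHb (abs_nonneg _)
      _ = H * (|β| * |X2 + α * X3|) := by ring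
      _ ≤ H * E := by gcongr
  have f01 := abs_le.1 g01
  have hEH : E ≤ H * E := le_mul_of_one_le_left hE0 hH
  have hHE0 : 0 ≤ H * E := mul_nonneg hH0 hE0
  have hHH : H * E ≤ H ^ 2 * E := by
    calc H * E ≤ H * (H * E) := le_mul_of_one_le_left hHE0 hH
      _ = _ := by ring
  have hαX : ∀ X : ℝ, ∀ B : ℝ, |α * X| ≤ B → |X| ≤ H * B := by
    intro X B h
    rw [abs_mul, abs_of_nonneg hα0] at h
    calc |X| = 1 * |X| := (one_mul _).symm
      _ ≤ (H * α) * |X| := mul_le_mul_of_nonneg_right hHα (abs_nonneg _)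
      _ = H * (α * |X|) := by ring
      _ ≤ H * B := by gcongr
  refine ⟨?_, ?_, ?_, ?_⟩
  · refine le_trans ?_ hHH
    refine le_trans ?_ hEH
    rw [abs_le]
    constructor <;> linarith
  · refine le_trans (hαX X1 E ?_) hHH
    rw [abs_le]
    constructor <;> linarith
  · refine le_trans ?_ hHH
    rw [abs_le]
    constructor <;> linarith
  · refine le_trans (hαX X3 (H * E) ?_) (le_of_eq (by ring))
    rw [abs_le]
    constructor <;> linarith

open Pool.Agent.H496.R6 Pool.Agent.H496.R4 in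
theorem count_z [DecidableEq W] [DecidableEq V] [Nonempty V] {M : ℝ} (hM : 1 ≤ M) {δ : ℝ} (hδ : 0 < δ) :
    ∃ Z0 : ℝ, 0 < Z0 ∧ ∀ (𝔫 : Ideal (𝓞 K)), 𝔫 ≠ ⊥ → ∀ (Γ : Subgroup S.D1), (∀ γ ∈ Γ, AllIn 𝔫 (γ.el - 1)) →
    ∀ (w₀ : W), ∀ z ∈ S.Reg M, ∀ U : ℝ, 1 ≤ U →
      CountHyp (S.hom Γ) (S.homH Γ) w₀ z U (Z0 * (4 * U) ^ δ) (1 / Ideal.absNorm 𝔫) := by
  obtain ⟨H, hH, Ha, Hb, Hw, Hw2, Hb2⟩ := exists_H S
  obtain ⟨v₀⟩ := ‹Nonempty V›
  obtain ⟨C, hC, hcnt⟩ := count_arith (Module.finrank ℚ K) hδ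
  set d := Module.finrank ℚ K with hd
  set Q0 : ℝ := (16 * M ^ 3 * H ^ 2) ^ d with hQ0
  have hM3 : 1 ≤ M ^ 3 := one_le_pow₀ hM
  have hH2 : 1 ≤ H ^ 2 := one_le_pow₀ hH
  have hbase : 1 ≤ 16 * M ^ 3 * H ^ 2 := by
    have : 1 ≤ M ^ 3 * H ^ 2 := one_le_mul_of_one_le_of_one_le hM3 hH2
    linarith
  have hQ1 : 1 ≤ Q0 := one_le_pow₀ hbase
  have h4d : (1 : ℝ) ≤ 4 ^ d := one_le_pow₀ (by norm_num)
  have h2Hd : (1 : ℝ) ≤ (2 * H) ^ d := one_le_pow₀ (by linarith)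
  refine ⟨(2 ^ d * (2 * (4 ^ d * Q0))) * ((2 * ((2 * H) ^ d * Q0)) * (C * (2 * H * Q0) ^ δ + 1)), by positivity, ?_⟩
  intro 𝔫 h𝔫 Γ hΓ w₀ z hz U hU T hT1 hT4 s hs0 hs1 A hA
  classical
  obtain ⟨γ₀, hγ₀, hbox⟩ := hz
  have hN : (0 : ℝ) < Ideal.absNorm 𝔫 := by
    have : Ideal.absNorm 𝔫 ≠ 0 := by rwa [Ne, Ideal.absNorm_eq_zero_iff]
    positivity
  -- the coordinates
  have hex : ∀ γ : Γ, ∃ p : 𝓞 K × 𝓞 K × 𝓞 K × 𝓞 K, ((p.1 : K) = (γ₀ * γ * γ₀⁻¹).el.re ∧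
      (p.2.1 : K) = (γ₀ * γ * γ₀⁻¹).el.imI ∧ (p.2.2.1 : K) = (γ₀ * γ * γ₀⁻¹).el.imJ ∧
      (p.2.2.2 : K) = (γ₀ * γ * γ₀⁻¹).el.imK) ∧ (p.1 - 1 ∈ 𝔫 ∧ p.2.1 ∈ 𝔫 ∧ p.2.2.1 ∈ 𝔫 ∧ p.2.2.2 ∈ 𝔫) := by
    intro γ
    obtain ⟨⟨t0, ht0, e0⟩, ⟨t1, ht1, e1⟩, ⟨t2, ht2, e2⟩, ⟨t3, ht3, e3⟩⟩ := conj_mem hγ₀ (hΓ γ γ.2)
    refine ⟨(t0 + 1, t1, t2, t3), ⟨?_, ?_, ?_, ?_⟩, ?_, ht1, ht2, ht3⟩
    · rw [QuaternionAlgebra.re_sub, QuaternionAlgebra.re_one] at e0
      calc ((t0 + 1 : 𝓞 K) : K) = (t0 : K) + 1 := rfl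
        _ = _ := by rw [e0, sub_add_cancel]
    · rw [e1, QuaternionAlgebra.imI_sub, QuaternionAlgebra.imI_one, sub_zero]
    · rw [e2, QuaternionAlgebra.imJ_sub, QuaternionAlgebra.imJ_one, sub_zero]
    · rw [e3, QuaternionAlgebra.imK_sub, QuaternionAlgebra.imK_one, sub_zero]
    · simpa using ht0
  choose p hp1 hp2 using hex
  have hpinj : Injective p := by
    intro γ γ' h
    obtain ⟨a0, a1, a2, a3⟩ := hp1 γ
    obtain ⟨b0, b1, b2, b3⟩ := hp1 γ'
    have h1 : γ₀ * (γ : S.D1) * γ₀⁻¹ = γ₀ * (γ' : S.D1) * γ₀⁻¹ := by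
      apply NormOne.ext
      rw [h] at a0 a1 a2 a3
      ext
      · rw [← a0, ← b0]
      · rw [← a1, ← b1]
      · rw [← a2, ← b2]
      · rw [← a3, ← b3]
    have h2 : (γ : S.D1) = γ' := by
      have := mul_right_cancel h1
      exact mul_left_cancel this
    exact Subtype.ext h2
  -- the displacement of the conjugate
  have hdisp : ∀ (γ : Γ) (w : W), Real.cosh (dist (S.act γ₀ z w)
      (toSL (S.ψ w) (S.pos w) (γ₀ * (γ : S.D1) * γ₀⁻¹) • S.act γ₀ z w) / 2) = cd (S.hom Γ) z w γ := by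
    intro γ w
    have h1 : toSL (S.ψ w) (S.pos w) (γ₀ * (γ : S.D1) * γ₀⁻¹) • S.act γ₀ z w =
        toSL (S.ψ w) (S.pos w) γ₀ • toSL (S.ψ w) (S.pos w) (γ : S.D1) • z w := by
      have h2 : S.act γ₀ z w = toSL (S.ψ w) (S.pos w) γ₀ • z w := rfl
      rw [h2, ← mul_smul, ← mul_smul, ← toSL_mul, ← toSL_mul, inv_mul_cancel_right]
    rw [h1]
    have h2 : S.act γ₀ z w = toSL (S.ψ w) (S.pos w) γ₀ • z w := rfl
    rw [h2, dist_smul]
    rfl
  set Aw : W → ℝ := fun w => 8 * M ^ 3 * H ^ 2 * (if w = w₀ then T else 2) with hAw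
  have hAw1 : ∀ w, 1 ≤ Aw w := by
    intro w
    have h1 : (1 : ℝ) ≤ if w = w₀ then T else 2 := by
      split_ifs
      · exact hT1
      · norm_num
    have h2 : 1 ≤ 8 * M ^ 3 * H ^ 2 := by
      have : 1 ≤ M ^ 3 * H ^ 2 := one_le_mul_of_one_le_of_one_le hM3 hH2
      linarith
    exact one_le_mul_of_one_le_of_one_le h2 h1
  have key := hcnt K rfl W V S.ψ S.φ S.inj S.card w₀ v₀ S.a S.b S.pos S.neg 𝔫 h𝔫 Aw hAw1 s (fun v => (hs0 v).le)
    H hH Ha Hb Hw (A.image p) ?_ ?_ ?_ ?_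
  · rw [Finset.card_image_of_injective _ hpinj] at key
    have hPA : ∏ w, Aw w ≤ Q0 * T := by
      have h1 : ∏ w, Aw w = (8 * M ^ 3 * H ^ 2) ^ Fintype.card W * ∏ w, (if w = w₀ then T else 2) := by
        rw [← Finset.card_univ, ← Finset.prod_const, ← Finset.prod_mul_distrib]
      have h2 : ∏ w, (if w = w₀ then T else 2) ≤ T * 2 ^ Fintype.card W := by
        calc ∏ w, (if w = w₀ then T else 2) ≤ ∏ w, ((if w = w₀ then T else 1) * 2) := by
              refine Finset.prod_le_prod (fun w _ => by split_ifs <;> linarith) fun w _ => ?_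
              split_ifs <;> linarith
          _ = T * 2 ^ Fintype.card W := by
              rw [Finset.prod_mul_distrib, Finset.prod_ite_eq' Finset.univ w₀ fun _ => T]
              simp
      rw [h1]
      calc (8 * M ^ 3 * H ^ 2) ^ Fintype.card W * ∏ w, (if w = w₀ then T else 2) ≤
          (8 * M ^ 3 * H ^ 2) ^ Fintype.card W * (T * 2 ^ Fintype.card W) := by gcongr
        _ = ((8 * M ^ 3 * H ^ 2) * 2) ^ Fintype.card W * T := by
            rw [mul_pow (8 * M ^ 3 * H ^ 2) 2]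
            ring
        _ = (16 * M ^ 3 * H ^ 2) ^ Fintype.card W * T := by
            have hX : (8 * M ^ 3 * H ^ 2) * 2 = 16 * M ^ 3 * H ^ 2 := by ring
            rw [hX]
        _ ≤ Q0 * T := by
            refine mul_le_mul_of_nonneg_right ?_ (by linarith)
            exact pow_le_pow_right₀ hbase (by rw [hd, ← S.card]; omega)
    have hPA0 : 0 ≤ ∏ w, Aw w := Finset.prod_nonneg fun w _ => by linarith [hAw1 w]
    set P2 : ℝ := ∏ v, s v ^ 2 with hP2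
    set P1 : ℝ := ∏ v, s v with hP1
    have hP20 : 0 ≤ P2 := Finset.prod_nonneg fun v _ => sq_nonneg _
    have hP10 : 0 ≤ P1 := Finset.prod_nonneg fun v _ => (hs0 v).le
    set Nn : ℝ := (Ideal.absNorm 𝔫 : ℝ) with hNn
    have hT0 : 0 < T := by linarith
    have b1 : 2 ^ Fintype.card V * (2 + 4 ^ d * (∏ w, Aw w) * P2 / Nn ^ 2) ≤
        (2 ^ d * (2 * (4 ^ d * Q0))) * (1 + T * P2 * (1 / Nn) ^ 2) := by
      have c1 : (2 : ℝ) ^ Fintype.card V ≤ 2 ^ d := pow_le_pow_right₀ (by norm_num) (by rw [hd, ← S.card]; omega)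
      have c2 : 4 ^ d * (∏ w, Aw w) * P2 / Nn ^ 2 ≤ (4 ^ d * Q0) * (T * P2 * (1 / Nn) ^ 2) := by
        calc 4 ^ d * (∏ w, Aw w) * P2 / Nn ^ 2 ≤ 4 ^ d * (Q0 * T) * P2 / Nn ^ 2 := by gcongr
          _ = _ := by
            field_simp
      have c3 : 1 ≤ 4 ^ d * Q0 := one_le_mul_of_one_le_of_one_le h4d hQ1
      have c4 : 0 ≤ T * P2 * (1 / Nn) ^ 2 := by positivity
      have c5 : 2 + 4 ^ d * (∏ w, Aw w) * P2 / Nn ^ 2 ≤ (2 * (4 ^ d * Q0)) * (1 + T * P2 * (1 / Nn) ^ 2) := by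
        nlinarith
      calc 2 ^ Fintype.card V * (2 + 4 ^ d * (∏ w, Aw w) * P2 / Nn ^ 2) ≤
          2 ^ d * ((2 * (4 ^ d * Q0)) * (1 + T * P2 * (1 / Nn) ^ 2)) := by gcongr
        _ = _ := by ring
    have b2 : 2 + (2 * H) ^ d * (∏ w, Aw w) * P1 / Nn ≤ (2 * ((2 * H) ^ d * Q0)) * (1 + T * P1 * (1 / Nn)) := by
      have c2 : (2 * H) ^ d * (∏ w, Aw w) * P1 / Nn ≤ ((2 * H) ^ d * Q0) * (T * P1 * (1 / Nn)) := by
        calc (2 * H) ^ d * (∏ w, Aw w) * P1 / Nn ≤ (2 * H) ^ d * (Q0 * T) * P1 / Nn := by gcongr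
          _ = _ := by
            field_simp
      have c3 : 1 ≤ (2 * H) ^ d * Q0 := one_le_mul_of_one_le_of_one_le h2Hd hQ1
      have c4 : 0 ≤ T * P1 * (1 / Nn) := by positivity
      nlinarith
    have b3 : C * (2 * H * ∏ w, Aw w) ^ δ + 1 ≤ (C * (2 * H * Q0) ^ δ + 1) * (4 * U) ^ δ := by
      have c1 : (2 * H * ∏ w, Aw w) ^ δ ≤ (2 * H * Q0) ^ δ * T ^ δ := by
        rw [← Real.mul_rpow (by positivity) hT0.le]
        refine Real.rpow_le_rpow (by positivity) ?_ hδ.le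
        calc 2 * H * ∏ w, Aw w ≤ 2 * H * (Q0 * T) := by gcongr
          _ = _ := by ring
      have c2 : T ^ δ ≤ (4 * U) ^ δ := Real.rpow_le_rpow hT0.le hT4 hδ.le
      have c3 : 1 ≤ (4 * U) ^ δ := Real.one_le_rpow (by linarith) hδ.le
      have c4 : 0 < (2 * H * Q0) ^ δ := by positivity
      calc C * (2 * H * ∏ w, Aw w) ^ δ + 1 ≤ C * ((2 * H * Q0) ^ δ * (4 * U) ^ δ) + 1 * (4 * U) ^ δ := by
            have c5 : (2 * H * Q0) ^ δ * T ^ δ ≤ (2 * H * Q0) ^ δ * (4 * U) ^ δ := by gcongr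
            have c6 := mul_le_mul_of_nonneg_left (c1.trans c5) hC.le
            linarith
        _ = _ := by ring
    refine key.trans ?_
    have n1 : 0 ≤ 2 + (2 * H) ^ d * (∏ w, Aw w) * P1 / Nn := by positivity
    have n2 : 0 ≤ C * (2 * H * ∏ w, Aw w) ^ δ + 1 := by
      have : 0 ≤ (2 * H * ∏ w, Aw w) ^ δ := Real.rpow_nonneg (by positivity) _
      positivity
    calc (2 ^ Fintype.card V * (2 + 4 ^ d * (∏ w, Aw w) * P2 / Nn ^ 2)) *
          ((2 + (2 * H) ^ d * (∏ w, Aw w) * P1 / Nn) * (C * (2 * H * ∏ w, Aw w) ^ δ + 1)) ≤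
        ((2 ^ d * (2 * (4 ^ d * Q0))) * (1 + T * P2 * (1 / Nn) ^ 2)) *
          (((2 * ((2 * H) ^ d * Q0)) * (1 + T * P1 * (1 / Nn))) * ((C * (2 * H * Q0) ^ δ + 1) * (4 * U) ^ δ)) := by
          refine mul_le_mul b1 ?_ (mul_nonneg n1 n2) (by positivity)
          exact mul_le_mul b2 b3 n2 (by positivity)
      _ = _ := by ring
  · intro q hq
    obtain ⟨γ, hγ, rfl⟩ := Finset.mem_image.1 hq
    obtain ⟨a0, a1, a2, a3⟩ := hp1 γ
    apply NumberField.RingOfIntegers.ext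
    have e1 : (((p γ).1 ^ 2 - S.a * (p γ).2.1 ^ 2 - S.b * (p γ).2.2.1 ^ 2 + S.a * S.b * (p γ).2.2.2 ^ 2 : 𝓞 K) : K) =
        ((p γ).1 : K) ^ 2 - (S.a : K) * ((p γ).2.1 : K) ^ 2 - (S.b : K) * ((p γ).2.2.1 : K) ^ 2 +
          (S.a : K) * (S.b : K) * ((p γ).2.2.2 : K) ^ 2 := by
      push_cast
      rfl
    rw [a0, a1, a2, a3] at e1
    exact e1.trans (γ₀ * (γ : S.D1) * γ₀⁻¹).nrd_el
  · intro q hq
    obtain ⟨γ, hγ, rfl⟩ := Finset.mem_image.1 hq
    exact hp2 γ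
  · intro q hq w
    obtain ⟨γ, hγ, rfl⟩ := Finset.mem_image.1 hq
    obtain ⟨a0, a1, a2, a3⟩ := hp1 γ
    obtain ⟨hc0, hcw, -⟩ := hA γ hγ
    obtain ⟨x1, y1, y2⟩ := hbox w
    have hent := fun i j => entries_le (toSL (S.ψ w) (S.pos w) (γ₀ * (γ : S.D1) * γ₀⁻¹)) (S.act γ₀ z w) x1 y1 y2 hM i j
    rw [hdisp γ w] at hent
    set c := cd (S.hom Γ) z w γ with hc
    have hcle : c ≤ if w = w₀ then T else 2 := by
      split_ifs with h
      · rw [hc, h]
        exact hc0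
      · exact hcw w h
    have hc1 : 1 ≤ c := one_le_cd _ _ _ _
    set E : ℝ := 8 * M ^ 3 * c with hE
    have hE0 : 0 ≤ E := by positivity
    have hEA : H ^ 2 * E ≤ Aw w := by
      calc H ^ 2 * E = 8 * M ^ 3 * H ^ 2 * c := by rw [hE]; ring
        _ ≤ _ := by
          rw [hAw]
          simp only
          gcongr
    set X0 := S.ψ w ((p γ).1 : K) with hX0
    set X1 := S.ψ w ((p γ).2.1 : K) with hX1
    set X2 := S.ψ w ((p γ).2.2.1 : K) with hX2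
    set X3 := S.ψ w ((p γ).2.2.2 : K) with hX3
    set α := √(S.ψ w S.a) with hα
    have e00 : |X0 + α * X1| ≤ E := by
      have := hent 0 0
      rw [hX0, hX1, a0, a1]
      exact this
    have e11 : |X0 - α * X1| ≤ E := by
      have := hent 1 1
      rw [hX0, hX1, a0, a1]
      exact this
    have e01 : |S.ψ w S.b * (X2 + α * X3)| ≤ E := by
      have := hent 0 1
      rw [hX2, hX3, a2, a3]
      exact this
    have e10 : |X2 - α * X3| ≤ E := by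
      have := hent 1 0
      rw [hX2, hX3, a2, a3]
      exact this
    obtain ⟨f0, f1, f2, f3⟩ := coord_bound hH hE0 (Real.sqrt_nonneg _) (Hw2 w) (Hb2 w) e00 e11 e01 e10
    exact ⟨f0.trans hEA, f1.trans hEA, f2.trans hEA, f3.trans hEA⟩
  · intro q hq v
    obtain ⟨γ, hγ, rfl⟩ := Finset.mem_image.1 hq
    obtain ⟨a0, -, -, -⟩ := hp1 γ
    have h1 := (hA γ hγ).2.2 v
    have h2 := (sn_sq (norm_homH S Γ v γ)).1
    have h3 : (S.homH Γ v γ).re = S.φ v ((p γ).1 : K) := by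
      rw [a0, re_conj]
      rfl
    rw [h3] at h2
    rw [← h2]
    have := sn_nonneg (S.homH Γ v γ)
    gcongr

end count

section consts
variable {W V : Type} [Fintype W] [DecidableEq W] [Fintype V]

/-- the constant -/
noncomputable def cst (V : Type) [Fintype V] (δ Z0 : ℝ) : ℝ :=
  (1 + 1 / ((2 : ℝ) ^ δ - 1)) * 12 ^ δ * ((1 + 1 / ((2 : ℝ) ^ δ - 1)) * 2 ^ δ) ^ Fintype.card V *
    (32 * 2 ^ Fintype.card V) * Z0 * 24 ^ δ * (2 ^ Fintype.card V + 26)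

theorem cst_pos {δ Z0 : ℝ} (hδ : 0 < δ) (hZ : 0 < Z0) : 0 < cst V δ Z0 := by
  have h1 : 1 < (2 : ℝ) ^ δ := Real.one_lt_rpow (by norm_num) hδ
  have h0 : 0 < 1 / ((2 : ℝ) ^ δ - 1) := by
    apply one_div_pos.2
    linarith
  unfold cst
  positivity

open Pool.Agent.H496.R6 Pool.Agent.H496.R4 in
theorem KB_le {δ Z0 N : ℝ} (hδ : 0 < δ) (hZ : 0 < Z0) (hN : 1 ≤ N) (n : V → ℕ) :
    KB V (6 * (N ^ 3 * dims n)) (Z0 * (4 * (6 * (N ^ 3 * dims n))) ^ δ) (1 / N) n ≤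
      (6 * (N ^ 3 * dims n)) * (cst V δ Z0 * (N ^ 3 * dims n) ^ (3 * δ) * dims n ^ 2) := by
  have h1 : 1 < (2 : ℝ) ^ δ := Real.one_lt_rpow (by norm_num) hδ
  have h0 : 0 < 1 / ((2 : ℝ) ^ δ - 1) := by
    apply one_div_pos.2
    linarith
  set L : ℝ := 1 + 1 / ((2 : ℝ) ^ δ - 1) with hL
  have hL0 : 0 < L := by positivity
  set P : ℝ := dims n with hP
  have hPd : ∏ v, ((n v : ℝ) + 1) = P := rfl
  have hP1 : 1 ≤ P := by
    calc (1 : ℝ) = ∏ _v : V, (1 : ℝ) := by simp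
      _ ≤ ∏ v, ((n v : ℝ) + 1) := Finset.prod_le_prod (fun _ _ => zero_le_one) fun v _ => by
        have : (0 : ℝ) ≤ n v := by positivity
        linarith
  have hN3 : 1 ≤ N ^ 3 := one_le_pow₀ hN
  set X : ℝ := N ^ 3 * P with hX
  have hX1 : 1 ≤ X := one_le_mul_of_one_le_of_one_le hN3 hP1
  have hX0 : 0 < X := by linarith
  have hPX : P ≤ X := by
    rw [hX]
    exact le_mul_of_one_le_left (by linarith) hN3
  set U : ℝ := 6 * X with hU
  have hU1 : 1 ≤ U := by rw [hU]; linarith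
  have b1 : (nsc U : ℝ) ≤ L * (12 ^ δ * X ^ δ) := by
    have := nsc_le hδ hU1
    rw [← Real.mul_rpow (by norm_num) hX0.le]
    rw [hU] at this ⊢
    rw [show 2 * (6 * X) = 12 * X by ring] at this
    exact this
  have b2 : ∏ v, ((scl (n v) : ℝ) + 1) ≤ (L * 2 ^ δ) ^ Fintype.card V * X ^ δ := by
    have := scl_prod_le hδ n
    rw [hPd] at this
    refine this.trans ?_
    have : P ^ δ ≤ X ^ δ := Real.rpow_le_rpow (by linarith) hPX hδ.le
    gcongr
  have b3 : (4 * U) ^ δ = 24 ^ δ * X ^ δ := by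
    rw [← Real.mul_rpow (by norm_num) hX0.le, hU]
    congr 1
    ring
  have b4 : 2 ^ Fintype.card V * P + 2 + 4 * U * (1 / N) ^ 3 ≤ (2 ^ Fintype.card V + 26) * P := by
    have h2 : 4 * U * (1 / N) ^ 3 = 24 * P := by
      rw [hU, hX]
      have : N ≠ 0 := by linarith
      field_simp
      ring
    rw [h2]
    nlinarith
  have hXδ : 0 < X ^ δ := by positivity
  have hpow : X ^ (3 * δ) = X ^ δ * X ^ δ * X ^ δ := by
    rw [← Real.rpow_add hX0, ← Real.rpow_add hX0]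
    congr 1
    ring
  have hn1 : 0 ≤ ∏ v, ((scl (n v) : ℝ) + 1) := Finset.prod_nonneg fun v _ => by positivity
  rw [KB, hPd, b3]
  calc ((nsc U : ℝ) * ∏ v, ((scl (n v) : ℝ) + 1)) * (32 * 2 ^ Fintype.card V * U * P * (Z0 * (24 ^ δ * X ^ δ)) *
        (2 ^ Fintype.card V * P + 2 + 4 * U * (1 / N) ^ 3)) ≤
      ((L * (12 ^ δ * X ^ δ)) * ((L * 2 ^ δ) ^ Fintype.card V * X ^ δ)) *
        (32 * 2 ^ Fintype.card V * U * P * (Z0 * (24 ^ δ * X ^ δ)) * ((2 ^ Fintype.card V + 26) * P)) := by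
        have hU0 : 0 < U := by linarith
        have hP0 : 0 < P := by linarith
        have hN0 : 0 < N := by linarith
        gcongr
    _ = U * (cst V δ Z0 * X ^ (3 * δ) * P ^ 2) := by
        rw [hpow, cst, ← hL]
        ring

end consts

/-- **The density hypothesis of Sarnak and Xue, in the level and in each single weight together.** -/
theorem result (K : Type) [Field K] [NumberField K] (W V : Type) [Fintype W] [DecidableEq W] [Fintype V]
    [Nonempty V] (S : Setting K W V) (ε : ℝ) (hε : 0 < ε) :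
    ∃ C : ℝ, 0 < C ∧ ∀ (𝔫 : Ideal (𝓞 K)), 𝔫 ≠ ⊥ → ∀ (Γ : Subgroup S.D1), (∀ γ ∈ Γ, AllIn 𝔫 (γ.el - 1)) →
    ∀ (F : Set (W → UpperHalfPlane)), S.Covers Γ F →
    ∀ (w₀ : W) (n : V → ℕ) (Λ : W → ℝ), (∀ w, 1 ≤ Λ w) →
    ∀ (J : Type) [Fintype J] [DecidableEq J] (f : J → (W → UpperHalfPlane) → (V → ℍ[ℝ]) → ℂ) (ϑ : J → ℝ),
      IsFamily S Γ F w₀ n Λ f ϑ →
      (∀ (z : W → UpperHalfPlane) (x : V → S3),
        ∑ j, cond 𝔫 n ^ (2 * ϑ j) * ‖f j z (fun v => (x v).1)‖ ^ 2 ≤ bound 𝔫 C ε w₀ n Λ) ∧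
      ∑ j, ENNReal.ofReal (cond 𝔫 n ^ (2 * ϑ j)) ≤ ENNReal.ofReal (bound 𝔫 C ε w₀ n Λ) * volume F := by
  classical
  have hδ : 0 < ε / 3 := by positivity
  obtain ⟨M, hM, hreg⟩ := reg_univ S
  obtain ⟨Z0, hZ0, hcount⟩ := count_z S hM hδ
  refine ⟨17 ^ Fintype.card W * cst V (ε / 3) Z0, mul_pos (by positivity) (cst_pos hδ hZ0), ?_⟩
  intro 𝔫 h𝔫 Γ hΓ F hFc w₀ n Λ hΛ J _ _ f ϑ hfam
  obtain ⟨hF, hcov⟩ := hFc
  choose lam hf hlam2 hlam using hfam.form
  have ho := hfam.orthonormal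
  have : Countable S.D1 := countable_NormOne K (S.a : K) (S.b : K)
  have hN1 : (1 : ℝ) ≤ Ideal.absNorm 𝔫 := by
    have : Ideal.absNorm 𝔫 ≠ 0 := by rwa [Ne, Ideal.absNorm_eq_zero_iff]
    exact_mod_cast Nat.one_le_iff_ne_zero.2 this
  set Nn : ℝ := (Ideal.absNorm 𝔫 : ℝ) with hNn
  set P : ℝ := dims n with hP
  have hP1 : 1 ≤ P := by
    calc (1 : ℝ) = ∏ _v : V, (1 : ℝ) := by simp
      _ ≤ ∏ v, ((n v : ℝ) + 1) := Finset.prod_le_prod (fun _ _ => zero_le_one) fun v _ => by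
        have : (0 : ℝ) ≤ n v := by positivity
        linarith
  have hcond : cond 𝔫 n = Nn ^ 3 * P := rfl
  have hN3 : 1 ≤ Nn ^ 3 := one_le_pow₀ hN1
  set X : ℝ := Nn ^ 3 * P with hX
  have hX1 : 1 ≤ X := one_le_mul_of_one_le_of_one_le hN3 hP1
  have hX0 : 0 < X := by linarith
  set U : ℝ := 6 * X with hU
  have hU6 : 6 ≤ U := by rw [hU]; linarith
  have hU0 : 0 < U := by linarith
  have hcov' : ∀ᵐ z : W → UpperHalfPlane, {γ : Γ | (fun w => S.hom Γ w γ • z w) ∈ F}.Finite ∧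
      ∃ γ : Γ, (fun w => S.hom Γ w γ • z w) ∈ F := by
    filter_upwards [hcov] with z hz
    constructor
    · refine Set.Finite.of_finite_image (f := fun γ : Γ => (γ : S.D1)) (hz.1.subset ?_) Subtype.val_injective.injOn
      rintro _ ⟨γ, hγ, rfl⟩
      exact ⟨γ.2, hγ⟩
    · obtain ⟨γ, hγ, h⟩ := hz.2
      exact ⟨⟨γ, hγ⟩, h⟩
  have hLpos : 0 ≤ ∏ w ∈ Finset.univ.erase w₀, Λ w := Finset.prod_nonneg fun w _ => by linarith [hΛ w]
  have hcstp := cst_pos (V := V) hδ hZ0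
  -- the pointwise bound
  have hpt : ∀ (z : W → UpperHalfPlane) (x : V → S3),
      ∑ j, X ^ (2 * ϑ j) * ‖f j z (fun v => (x v).1)‖ ^ 2 ≤ bound 𝔫 (17 ^ Fintype.card W * cst V (ε / 3) Z0) ε w₀ n Λ := by
    intro z x
    have hz := hreg z
    have core := Pool.Agent.H496.R6.core3 (S.hom Γ) (S.homH Γ) (norm_homH S Γ) (w₀ := w₀) (U := U)
      (Z := Z0 * (4 * U) ^ (ε / 3)) (q := 1 / Nn) (L := Λ) f (lam := lam) (n := n) (F := F)
      hU6 hΛ (by positivity) (by positivity) (by rw [div_le_one (by linarith)]; exact hN1) hF hcov'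
      (fun j => (hf j).continuous)
      (fun j γ z x => (hf j).invariant γ γ.2 z x)
      (fun j w z x => (hf j).laplace w z x)
      (fun j z => (hf j).weight z) ho
      hlam2 (ϑ := ϑ) (fun j => (hfam.range j).1) (fun j => (hfam.range j).2) hlam z
      (hcount 𝔫 h𝔫 Γ hΓ w₀ z hz U (by linarith)) x
    have h2 : U * ∑ j, X ^ (2 * ϑ j) * ‖f j z (fun v => (x v).1)‖ ^ 2 ≤
        ∑ j, U ^ (1 + 2 * ϑ j) * ‖f j z (fun v => (x v).1)‖ ^ 2 := by
      rw [Finset.mul_sum]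
      refine Finset.sum_le_sum fun j _ => ?_
      rw [← mul_assoc]
      refine mul_le_mul_of_nonneg_right ?_ (sq_nonneg _)
      rw [Real.rpow_add hU0, Real.rpow_one]
      refine mul_le_mul_of_nonneg_left ?_ hU0.le
      refine Real.rpow_le_rpow hX0.le ?_ (by have := (hfam.range j).1; linarith)
      rw [hU]
      linarith
    have h3 : (∏ w : Pool.Agent.H496.R6.Oth w₀, (17 * Λ w)) ≤
        17 ^ Fintype.card W * ∏ w ∈ Finset.univ.erase w₀, Λ w := by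
      have h4 : (∏ w : Pool.Agent.H496.R6.Oth w₀, (17 * Λ w)) = ∏ w ∈ Finset.univ.erase w₀, (17 * Λ w) := by
        refine (Finset.prod_subtype (Finset.univ.erase w₀) (fun w => ?_) fun w => 17 * Λ w).symm
        simp
      rw [h4, Finset.prod_mul_distrib, Finset.prod_const]
      refine mul_le_mul_of_nonneg_right ?_ hLpos
      refine pow_le_pow_right₀ (by norm_num) ?_
      rw [← Finset.card_univ]
      exact Finset.card_le_card (Finset.erase_subset _ _)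
    have h5 := KB_le (V := V) hδ hZ0 hN1 n
    rw [← hP, ← hX, ← hU] at h5
    have h6 : 3 * (ε / 3) = ε := by ring
    rw [h6] at h5
    have hpr0 : 0 ≤ ∏ w : Pool.Agent.H496.R6.Oth w₀, (17 * Λ w) := Finset.prod_nonneg fun w _ => by
      have := hΛ w
      positivity
    have hXε : 0 < X ^ ε := by positivity
    have h7 : U * ∑ j, X ^ (2 * ϑ j) * ‖f j z (fun v => (x v).1)‖ ^ 2 ≤
        U * bound 𝔫 (17 ^ Fintype.card W * cst V (ε / 3) Z0) ε w₀ n Λ := by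
      calc U * ∑ j, X ^ (2 * ϑ j) * ‖f j z (fun v => (x v).1)‖ ^ 2 ≤
          (∏ w : Pool.Agent.H496.R6.Oth w₀, (17 * Λ w)) *
            Pool.Agent.H496.R6.KB V U (Z0 * (4 * U) ^ (ε / 3)) (1 / Nn) n := h2.trans core
        _ ≤ (17 ^ Fintype.card W * ∏ w ∈ Finset.univ.erase w₀, Λ w) *
            (U * (cst V (ε / 3) Z0 * X ^ ε * P ^ 2)) := by
            refine (mul_le_mul_of_nonneg_left h5 hpr0).trans ?_
            exact mul_le_mul_of_nonneg_right h3 (by positivity)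
        _ = _ := by
            rw [bound, hcond]
            ring
    exact le_of_mul_le_mul_left h7 hU0
  refine ⟨hpt, ?_⟩
  -- integration
  set B : ℝ := bound 𝔫 (17 ^ Fintype.card W * cst V (ε / 3) Z0) ε w₀ n Λ with hB
  rw [hcond]
  set ν := (volume.restrict F).prod (Pool.Agent.H496.R4.sgV V) with hν
  have hmeas : ∀ j, Measurable fun p : (W → UpperHalfPlane) × (V → S3) => f j p.1 (fun v => (p.2 v).1) := by
    intro j
    have hval : Measurable fun p : (W → UpperHalfPlane) × (V → S3) => (fun v => (p.2 v : ℍ[ℝ])) :=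
      measurable_pi_iff.2 fun v => measurable_subtype_coe.comp ((measurable_pi_apply v).comp measurable_snd)
    exact (hf j).continuous.measurable.comp (measurable_fst.prodMk hval)
  have hone : ∀ j, ∫⁻ p, ENNReal.ofReal (‖f j p.1 (fun v => (p.2 v).1)‖ ^ 2) ∂ν = 1 := by
    intro j
    have key := Pool.Agent.H496.orth_sum ν (fun j p => f j p.1 (fun v => (p.2 v).1))
      (fun j => (hmeas j).aestronglyMeasurable) ho (Pi.single j 1)
    have e1 : ∀ p : (W → UpperHalfPlane) × (V → S3),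
        ∑ i, (Pi.single j (1 : ℂ) : J → ℂ) i * f i p.1 (fun v => (p.2 v).1) = f j p.1 (fun v => (p.2 v).1) := by
      intro p
      rw [Finset.sum_eq_single j]
      · simp
      · intro i _ hi
        simp [Pi.single_eq_of_ne hi]
      · intro h
        exact absurd (Finset.mem_univ j) h
    have e2 : ∑ i, ‖(Pi.single j (1 : ℂ) : J → ℂ) i‖ ^ 2 = 1 := by
      rw [Finset.sum_eq_single j]
      · simp
      · intro i _ hi
        simp [Pi.single_eq_of_ne hi]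
      · intro h
        exact absurd (Finset.mem_univ j) h
    simp_rw [e1, e2] at key
    rw [key, ENNReal.ofReal_one]
  have hbd : ∀ᵐ p ∂ν, ∑ j, ENNReal.ofReal (X ^ (2 * ϑ j)) *
        ENNReal.ofReal (‖f j p.1 (fun v => (p.2 v).1)‖ ^ 2) ≤ ENNReal.ofReal B := by
    refine Filter.Eventually.of_forall fun p => ?_
    have e : ∀ j, ENNReal.ofReal (X ^ (2 * ϑ j)) * ENNReal.ofReal (‖f j p.1 (fun v => (p.2 v).1)‖ ^ 2) =
        ENNReal.ofReal (X ^ (2 * ϑ j) * ‖f j p.1 (fun v => (p.2 v).1)‖ ^ 2) := fun j =>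
      (ENNReal.ofReal_mul (by positivity)).symm
    simp_rw [e]
    rw [← ENNReal.ofReal_sum_of_nonneg fun j _ => by positivity]
    apply ENNReal.ofReal_le_ofReal
    exact hpt p.1 p.2
  calc ∑ j, ENNReal.ofReal (X ^ (2 * ϑ j)) =
        ∑ j, ENNReal.ofReal (X ^ (2 * ϑ j)) *
          ∫⁻ p, ENNReal.ofReal (‖f j p.1 (fun v => (p.2 v).1)‖ ^ 2) ∂ν := by
        simp_rw [hone, mul_one]
    _ = ∫⁻ p, ∑ j, ENNReal.ofReal (X ^ (2 * ϑ j)) *
          ENNReal.ofReal (‖f j p.1 (fun v => (p.2 v).1)‖ ^ 2) ∂ν := by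
        rw [lintegral_finsetSum]
        · refine Finset.sum_congr rfl fun j _ => ?_
          rw [lintegral_const_mul' _ _ ENNReal.ofReal_ne_top]
        · intro j _
          exact (((hmeas j).norm.pow_const 2).ennreal_ofReal).const_mul _
    _ ≤ ∫⁻ _, ENNReal.ofReal B ∂ν := lintegral_mono_ae hbd
    _ = ENNReal.ofReal B * volume F := by
        rw [lintegral_const, hν, ← univ_prod_univ, Measure.prod_prod, Measure.restrict_apply_univ, measure_univ,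
          mul_one]

end Pool.Agent.Results.MP_8410ab_nt.SarnakXue
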